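import Pool.Agent.Helper343_LG.Defs

set_option autoImplicit false

/-!
# Countably many programs
-/

namespace Pool.Agent.Helper343_LG

open Module Pool.Agent.H515R2.MMR Filter Topology

variable {n : ℕ}

lemma eval_congr (q : Aff n) {l : ℕ} {A B : Mat n} {v v' : ℕ → ℂ} (h : ∀ m < l, v m = v' m) :
    q.eval l A B v = q.eval l A B v' := by
  unfold Aff.eval
  congr 1
  exact Finset.sum_congr rfl fun m hm => by rw [h m (Finset.mem_range.mp hm)]

/-- the results of the steps as functions of the input -/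
theorem exists_values (s : ℕ → Step n) : ∃ v : ℕ → (Mat n × Mat n → ℂ), ∀ l,
    v l = fun p => if (s l).isDiv = true then
      (s l).P.eval l p.1 p.2 (fun m => v m p) / (s l).Q.eval l p.1 p.2 (fun m => v m p) else
      (s l).P.eval l p.1 p.2 (fun m => v m p) * (s l).Q.eval l p.1 p.2 (fun m => v m p) := by
  refine exists_rec (α := Mat n × Mat n → ℂ) (fun l v => fun p => if (s l).isDiv = true then
      (s l).P.eval l p.1 p.2 (fun m => v m p) / (s l).Q.eval l p.1 p.2 (fun m => v m p) else
      (s l).P.eval l p.1 p.2 (fun m => v m p) * (s l).Q.eval l p.1 p.2 (fun m => v m p)) ?_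
  intro l v v' h
  have e : ∀ (q : Aff n) (p : Mat n × Mat n), q.eval l p.1 p.2 (fun m => v m p) =
      q.eval l p.1 p.2 (fun m => v' m p) := by
    intro q p
    exact eval_congr q fun m hm => by rw [h m hm]
  simp only [e]

section values

variable {s : ℕ → Step n} {v : ℕ → (Mat n × Mat n → ℂ)}
  (hv : ∀ l, v l = fun p => if (s l).isDiv = true then
      (s l).P.eval l p.1 p.2 (fun m => v m p) / (s l).Q.eval l p.1 p.2 (fun m => v m p) else
      (s l).P.eval l p.1 p.2 (fun m => v m p) * (s l).Q.eval l p.1 p.2 (fun m => v m p))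

/-- the inputs on which the run is defined -/
def Runs (s : ℕ → Step n) (v : ℕ → (Mat n × Mat n → ℂ)) (L : ℕ) : Set (Mat n × Mat n) :=
  {p | ∀ l < L, (s l).isDiv = true → (s l).Q.eval l p.1 p.2 (fun m => v m p) ≠ 0}

include hv in
lemma isRun_of_runs {L : ℕ} {p : Mat n × Mat n} (hp : p ∈ Runs s v L) :
    IsRun L s p.1 p.2 (fun l => v l p) := by
  intro l hl
  constructor
  · intro h
    have := congrFun (hv l) p
    simp only [h, Bool.false_eq_true, if_false] at this
    exact this
  · intro h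
    have := congrFun (hv l) p
    simp only [h, if_true] at this
    exact ⟨hp l hl h, this⟩

include hv in
lemma run_unique {L : ℕ} {A B : Mat n} {w : ℕ → ℂ} (hw : IsRun L s A B w) :
    ∀ l < L, w l = v l (A, B) := by
  intro l
  induction l using Nat.strong_induction_on with
  | _ l ih =>
    intro hl
    have e : ∀ q : Aff n, q.eval l A B w = q.eval l A B (fun m => v m (A, B)) := by
      intro q
      exact eval_congr q fun m hm => ih m hm (hm.trans hl)
    have h1 := congrFun (hv l) (A, B)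
    simp only at h1
    rcases Bool.eq_false_or_eq_true (s l).isDiv with h | h
    · rw [if_pos h] at h1
      rw [h1, ((hw l hl).2 h).2, e, e]
    · rw [if_neg (by rw [h]; exact Bool.false_ne_true)] at h1
      rw [h1, (hw l hl).1 h, e, e]

include hv in
lemma mem_runs {L : ℕ} {A B : Mat n} {w : ℕ → ℂ} (hw : IsRun L s A B w) :
    (A, B) ∈ Runs s v L := by
  intro l hl h
  have h1 := ((hw l hl).2 h).1
  have e : (s l).Q.eval l A B w = (s l).Q.eval l A B (fun m => v m (A, B)) :=
    eval_congr _ fun m hm => run_unique hv hw m (hm.trans hl)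
  rwa [e] at h1

lemma eval_continuousAt {l : ℕ} {p : Mat n × Mat n} (q : Aff n)
    (h : ∀ m < l, ContinuousAt (v m) p) :
    ContinuousAt (fun p : Mat n × Mat n => q.eval l p.1 p.2 (fun m => v m p)) p := by
  unfold Aff.eval
  refine ((continuousAt_const.add ?_).add ?_).add ?_
  · exact ((LinearMap.continuous_of_finiteDimensional q.φ).comp continuous_fst).continuousAt
  · exact ((LinearMap.continuous_of_finiteDimensional q.ψ).comp continuous_snd).continuousAt
  · refine tendsto_finsetSum _ fun m hm => ?_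
    exact (continuousAt_const.mul (h m (Finset.mem_range.mp hm)))

include hv in
lemma values_continuousAt {L : ℕ} {p : Mat n × Mat n} (hp : p ∈ Runs s v L) :
    ∀ l < L, ContinuousAt (v l) p := by
  intro l
  induction l using Nat.strong_induction_on with
  | _ l ih =>
    intro hl
    have h1 := fun q : Aff n => eval_continuousAt q fun m hm => ih m hm (hm.trans hl)
    rw [hv l]
    rcases Bool.eq_false_or_eq_true (s l).isDiv with h | h
    · simp only [h, if_true]
      exact (h1 (s l).P).div (h1 (s l).Q) (hp l hl h)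
    · simp only [h, Bool.false_eq_true, if_false]
      exact (h1 (s l).P).mul (h1 (s l).Q)

include hv in
lemma isOpen_runs (L : ℕ) : IsOpen (Runs s v L) := by
  rw [isOpen_iff_mem_nhds]
  intro p hp
  have h1 : ∀ l ∈ Finset.range L, ∀ᶠ p' in 𝓝 p,
      (s l).isDiv = true → (s l).Q.eval l p'.1 p'.2 (fun m => v m p') ≠ 0 := by
    intro l hl
    rw [Finset.mem_range] at hl
    by_cases h : (s l).isDiv = true
    · have h2 := eval_continuousAt (v := v) (s l).Q
        fun m hm => values_continuousAt hv hp m (hm.trans hl)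
      have h3 := h2.eventually_ne (hp l hl h)
      filter_upwards [h3] with p' hp' _
      exact hp'
    · exact Eventually.of_forall fun p' h' => absurd h' h
  have h2 := (Filter.eventually_all_finset (Finset.range L)).mpr h1
  filter_upwards [h2] with p' hp' l hl
  exact hp' l (Finset.mem_range.mpr hl)

end values

/-- linear combinations of affine forms -/
lemma aff_sum {ι : Type} (t : Finset ι) (c : ι → ℂ) (o : ι → Aff n) : ∃ q : Aff n,
    ∀ (L : ℕ) (A B : Mat n) (w : ℕ → ℂ), q.eval L A B w = ∑ i ∈ t, c i * (o i).eval L A B w := by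
  refine ⟨⟨∑ i ∈ t, c i * (o i).c, ∑ i ∈ t, c i • (o i).φ, ∑ i ∈ t, c i • (o i).ψ,
    fun m => ∑ i ∈ t, c i * (o i).lam m⟩, ?_⟩
  intro L A B w
  unfold Aff.eval
  simp only [LinearMap.sum_apply, LinearMap.smul_apply, smul_eq_mul, Finset.sum_mul, mul_add,
    Finset.sum_add_distrib, Finset.mul_sum]
  congr 1
  rw [Finset.sum_comm]
  refine Finset.sum_congr rfl fun i _ => Finset.sum_congr rfl fun m _ => ?_
  ring

/-- the trace functionals of the product from its entries -/
lemma exists_trace_form (o : Fin n → Fin n → Aff n) (C : Mat n) : ∃ q : Aff n,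
    ∀ (L : ℕ) (A B : Mat n) (w : ℕ → ℂ), (∀ i j, (A * B) i j = (o i j).eval L A B w) →
      (A * B * C).trace = q.eval L A B w := by
  obtain ⟨q, hq⟩ := aff_sum (Finset.univ : Finset (Fin n × Fin n)) (fun p => C p.2 p.1)
    (fun p => o p.1 p.2)
  refine ⟨q, fun L A B w h => ?_⟩
  rw [hq, Fintype.sum_prod_type]
  simp only [Matrix.trace, Matrix.diag_apply]
  refine Finset.sum_congr rfl fun i _ => ?_
  rw [Matrix.mul_apply]
  refine Finset.sum_congr rfl fun j _ => ?_
  rw [h i j, mul_comm]

/-- **Baire category.**  If countably many programs cover the pairs of elements of two locally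
closed groups in an open set then one program is right on the product of two relatively open
sets. -/
theorem exists_program {G₁ G₂ : Subgroup (GL (Fin n) ℂ)} (h₁ : IsLocallyClosed (mats G₁))
    (h₂ : IsLocallyClosed (mats G₂)) {O : Set (Mat n × Mat n)} (hO : IsOpen O)
    (hne : ∃ A ∈ mats G₁, ∃ B ∈ mats G₂, (A, B) ∈ O) {L : ℕ} {s : ℕ → ℕ → Step n}
    {o : ℕ → Fin n → Fin n → Aff n}
    (hall : ∀ A ∈ mats G₁, ∀ B ∈ mats G₂, (A, B) ∈ O → ∃ i, Gives L (s i) (o i) A B) :
    ∃ (i : ℕ) (O₁ O₂ : Set (Mat n)) (a b : Mat n), IsOpen O₁ ∧ IsOpen O₂ ∧ a ∈ mats G₁ ∧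
      a ∈ O₁ ∧ b ∈ mats G₂ ∧ b ∈ O₂ ∧
      Computes L (s i) (mats G₁ ∩ O₁) (mats G₂ ∩ O₂) ⊤ := by
  let S : Set (Mat n × Mat n) := (mats G₁ ×ˢ mats G₂) ∩ O
  have hS : IsLocallyClosed S := by
    have e : S = (Prod.fst ⁻¹' mats G₁ ∩ Prod.snd ⁻¹' mats G₂) ∩ O := rfl
    rw [e]
    exact ((h₁.preimage continuous_fst).inter (h₂.preimage continuous_snd)).inter
      hO.isLocallyClosed
  have : LocallyCompactSpace (Mat n) := inferInstanceAs (LocallyCompactSpace (Fin n → Fin n → ℂ))
  have : LocallyCompactSpace S := hS.locallyCompactSpace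
  have : Nonempty S := by
    obtain ⟨A, hA, B, hB, hAB⟩ := hne
    exact ⟨⟨(A, B), ⟨hA, hB⟩, hAB⟩⟩
  let Z : ℕ → Set S := fun i => closure {p | Gives L (s i) (o i) p.1.1 p.1.2}
  have hZ : ⋃ i, Z i = Set.univ := by
    rw [Set.eq_univ_iff_forall]
    rintro ⟨⟨A, B⟩, ⟨hA, hB⟩, hAB⟩
    obtain ⟨i, hi⟩ := hall A hA B hB hAB
    exact Set.mem_iUnion.mpr ⟨i, subset_closure hi⟩
  obtain ⟨i, x, hx⟩ := nonempty_interior_of_iUnion_of_closed (fun i => isClosed_closure) hZ
  obtain ⟨v, hv⟩ := exists_values (s i)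
  -- a point of the interior where the program is right
  obtain ⟨p₀, hp₀U, hp₀⟩ : ∃ p ∈ interior (Z i), Gives L (s i) (o i) p.1.1 p.1.2 := by
    have h3 : x ∈ closure {p : S | Gives L (s i) (o i) p.1.1 p.1.2} := interior_subset hx
    obtain ⟨p, hp, hp'⟩ := mem_closure_iff.mp h3 _ isOpen_interior hx
    exact ⟨p, hp, hp'⟩
  -- an open set of the ambient space
  obtain ⟨U, hU, hUi⟩ := isOpen_induced_iff.mp (isOpen_interior (s := Z i))
  have hp₀R : p₀.1 ∈ Runs (s i) v L := by
    obtain ⟨w, hw, _⟩ := hp₀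
    exact mem_runs hv hw
  have hp₀U' : p₀.1 ∈ U := by
    have : p₀ ∈ Subtype.val ⁻¹' U := by rw [hUi]; exact hp₀U
    exact this
  have hright : ∀ p ∈ U ∩ Runs (s i) v L ∩ O, p.1 ∈ mats G₁ → p.2 ∈ mats G₂ →
      ∀ j k, (p.1 * p.2) j k = (o i j k).eval L p.1 p.2 (fun m => v m p) := by
    rintro p ⟨⟨hpU, hpR⟩, hpO⟩ hp1 hp2 j k
    let p' : S := ⟨p, ⟨hp1, hp2⟩, hpO⟩
    have h4 : p' ∈ interior (Z i) := by
      rw [← hUi]
      exact hpU
    have h5 : p' ∈ closure {p : S | Gives L (s i) (o i) p.1.1 p.1.2} := interior_subset h4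
    -- the difference is continuous at `p` and vanishes on a set with `p` in its closure
    let d : S → ℂ := fun z => (z.1.1 * z.1.2) j k - (o i j k).eval L z.1.1 z.1.2 (fun m => v m z.1)
    have hd : ContinuousAt d p' := by
      have h6 : ContinuousAt (fun z : Mat n × Mat n => (z.1 * z.2) j k -
          (o i j k).eval L z.1 z.2 (fun m => v m z)) p := by
        refine ContinuousAt.sub ?_ (eval_continuousAt _ (values_continuousAt hv hpR))
        have h7 : Continuous fun z : Mat n × Mat n => (z.1 * z.2) j k :=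
          (continuous_fst.matrix_mul continuous_snd).matrix_elem j k
        exact h7.continuousAt
      exact ContinuousAt.comp (f := (Subtype.val : S → Mat n × Mat n)) (x := p') h6
        continuous_subtype_val.continuousAt
    have hd0 : d p' = 0 := by
      by_contra hne0
      have h8 : ∀ᶠ z in 𝓝 p', d z ≠ 0 := hd.eventually_ne hne0
      have h9 : ∃ᶠ z in 𝓝 p', Gives L (s i) (o i) z.1.1 z.1.2 := mem_closure_iff_frequently.mp h5
      obtain ⟨z, hz1, hz2⟩ := (h9.and_eventually h8).exists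
      apply hz2
      obtain ⟨w, hw, hwo⟩ := hz1
      simp only [d]
      rw [hwo j k, sub_eq_zero]
      exact eval_congr _ fun m hm => run_unique hv hw m hm
    exact sub_eq_zero.mp hd0
  -- a product neighbourhood
  have hopen : IsOpen (U ∩ Runs (s i) v L ∩ O) := (hU.inter (isOpen_runs hv L)).inter hO
  obtain ⟨O₁, O₂, hO₁, hO₂, ha, hb, hsub⟩ := isOpen_prod_iff.mp hopen p₀.1.1 p₀.1.2
    ⟨⟨hp₀U', hp₀R⟩, p₀.2.2⟩
  refine ⟨i, O₁, O₂, p₀.1.1, p₀.1.2, hO₁, hO₂, p₀.2.1.1, ha, p₀.2.1.2, hb, ?_, ?_⟩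
  · rintro A ⟨hA, hAO⟩ B ⟨hB, hBO⟩
    have h6 := hsub (Set.mk_mem_prod hAO hBO)
    exact ⟨_, isRun_of_runs hv h6.1.2⟩
  · intro C _
    obtain ⟨q, hq⟩ := exists_trace_form (o i) C
    refine ⟨q, ?_⟩
    rintro A ⟨hA, hAO⟩ B ⟨hB, hBO⟩ w hw
    refine hq L A B w fun j k => ?_
    have h6 := hsub (Set.mk_mem_prod hAO hBO)
    rw [hright (A, B) h6 hA hB j k]
    exact (eval_congr _ fun m hm => run_unique hv hw m hm).symm

end Pool.Agent.Helper343_LG
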