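import Pool.Agent.Helper343_LG.Greedy

set_option autoImplicit false

/-!
# Covering most of the matrices by translates of a stable space
-/

namespace Pool.Agent.Helper343_LG

open Module Pool.Agent.H515R2.MMR Filter Topology

variable {m : ℕ}

/-- the matrices orthogonal to all `a i g` -/
def orths (g : Submodule ℂ (Mat m)) {k : ℕ} (a : Fin k → Mat m) : Submodule ℂ (Mat m) where
  carrier := {Z | ∀ i, ∀ x ∈ g, (a i * x * Z).trace = 0}
  add_mem' := by
    intro Y Z hY hZ i x hx
    rw [mul_add, Matrix.trace_add, hY i x hx, hZ i x hx, add_zero]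
  zero_mem' := by
    intro i x _
    rw [mul_zero, Matrix.trace_zero]
  smul_mem' := by
    intro c Z hZ i x hx
    rw [Matrix.mul_smul, Matrix.trace_smul, hZ i x hx, smul_zero]

theorem iterate {H : Set (Mat m)} (hH : Irr H) {g : Submodule ℂ (Mat m)} (hg : Stable H g)
    (k : ℕ) : ∃ a : Fin k → Mat m,
    (m ^ 2 + finrank ℂ g) ^ k * finrank ℂ (orths g a) ≤ (m ^ 2) ^ k * m ^ 2 := by
  induction k with
  | zero =>
    refine ⟨Fin.elim0, ?_⟩
    rw [pow_zero, pow_zero, one_mul, one_mul]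
    have h1 := Submodule.finrank_le (orths g (Fin.elim0 : Fin 0 → Mat m))
    rwa [Module.finrank_matrix, Fintype.card_fin, Module.finrank_self, mul_one, ← pow_two] at h1
  | succ k ih =>
    obtain ⟨a, ha⟩ := ih
    obtain ⟨b, hb⟩ := step hH hg (orths g a)
    refine ⟨Fin.snoc a b, ?_⟩
    have h1 : orths g (Fin.snoc a b : Fin (k + 1) → Mat m) ≤ orth g (orths g a) b := by
      intro Z hZ
      refine ⟨fun i x hx => ?_, ?_⟩
      · have := hZ i.castSucc x hx
        rwa [Fin.snoc_castSucc] at this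
      · change Z ∈ LinearMap.ker (pair g b)
        rw [LinearMap.mem_ker]
        ext x
        have := hZ (Fin.last k) x x.2
        rwa [Fin.snoc_last] at this
    have h2 := Submodule.finrank_mono h1
    calc (m ^ 2 + finrank ℂ g) ^ (k + 1) * finrank ℂ (orths g (Fin.snoc a b : Fin (k + 1) → Mat m))
        ≤ (m ^ 2 + finrank ℂ g) ^ (k + 1) * finrank ℂ (orth g (orths g a) b) :=
          Nat.mul_le_mul_left _ h2
      _ = (m ^ 2 + finrank ℂ g) ^ k * ((m ^ 2 + finrank ℂ g) * finrank ℂ (orth g (orths g a) b)) := by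
          ring
      _ ≤ (m ^ 2 + finrank ℂ g) ^ k * (m ^ 2 * finrank ℂ (orths g a)) :=
          Nat.mul_le_mul_left _ hb
      _ = m ^ 2 * ((m ^ 2 + finrank ℂ g) ^ k * finrank ℂ (orths g a)) := by ring
      _ ≤ m ^ 2 * ((m ^ 2) ^ k * m ^ 2) := Nat.mul_le_mul_left _ ha
      _ = (m ^ 2) ^ (k + 1) * m ^ 2 := by ring

lemma two_mul_pow_le {M d k : ℕ} (h : M ≤ k * d) (hM : 1 ≤ M) : 2 * M ^ k ≤ (M + d) ^ k := by
  have hM' : (0 : ℝ) < M := by exact_mod_cast hM
  have h1 := one_add_mul_le_pow (a := (d : ℝ) / M) (by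
    have : (0 : ℝ) ≤ (d : ℝ) / M := by positivity
    linarith) k
  have h2 : (1 : ℝ) ≤ k * ((d : ℝ) / M) := by
    rw [mul_div_assoc', le_div_iff₀ hM', one_mul]
    exact_mod_cast h
  have h3 : ((2 * M ^ k : ℕ) : ℝ) ≤ ((M + d) ^ k : ℕ) := by
    push_cast
    have h4 : (M : ℝ) + d = M * (1 + (d : ℝ) / M) := by field_simp
    rw [h4, mul_pow, mul_comm]
    exact mul_le_mul_of_nonneg_left (by linarith) (by positivity)
  exact_mod_cast h3

theorem cover_orths {H : Set (Mat m)} (hH : Irr H) {g : Submodule ℂ (Mat m)} (hg : Stable H g)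
    (hm : 1 ≤ m) {k : ℕ} (hk : m ^ 2 ≤ k * finrank ℂ g) : ∃ a : Fin (2 * k) → Mat m,
    4 * finrank ℂ (orths g a) ≤ m ^ 2 := by
  obtain ⟨a, ha⟩ := iterate hH hg (2 * k)
  refine ⟨a, ?_⟩
  have h1 := two_mul_pow_le hk (Nat.one_le_pow _ _ hm)
  have h2 : 4 * (m ^ 2) ^ (2 * k) ≤ (m ^ 2 + finrank ℂ g) ^ (2 * k) := by
    calc 4 * (m ^ 2) ^ (2 * k) = (2 * (m ^ 2) ^ k) ^ 2 := by ring
      _ ≤ ((m ^ 2 + finrank ℂ g) ^ k) ^ 2 := Nat.pow_le_pow_left h1 2
      _ = _ := by rw [← pow_mul, mul_comm k 2]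
  have h3 : 0 < (m ^ 2) ^ (2 * k) := by positivity
  have h4 : (m ^ 2) ^ (2 * k) * (4 * finrank ℂ (orths g a)) ≤ (m ^ 2) ^ (2 * k) * m ^ 2 := by
    calc (m ^ 2) ^ (2 * k) * (4 * finrank ℂ (orths g a))
        = (4 * (m ^ 2) ^ (2 * k)) * finrank ℂ (orths g a) := by ring
      _ ≤ (m ^ 2 + finrank ℂ g) ^ (2 * k) * finrank ℂ (orths g a) := Nat.mul_le_mul_right _ h2
      _ ≤ _ := ha
  exact Nat.le_of_mul_le_mul_left h4 h3

/-- the sum of the left translates `a i g` -/
noncomputable def sumMap (g : Submodule ℂ (Mat m)) {k : ℕ} (a : Fin k → Mat m) :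
    (Fin k → g) →ₗ[ℂ] Mat m where
  toFun x := ∑ i, a i * (x i : Mat m)
  map_add' x y := by
    simp only [Pi.add_apply, Submodule.coe_add, mul_add, Finset.sum_add_distrib]
  map_smul' c x := by
    simp only [Pi.smul_apply, Submodule.coe_smul, Matrix.mul_smul, Finset.smul_sum,
      RingHom.id_apply]

lemma finrank_range_add (g : Submodule ℂ (Mat m)) {k : ℕ} (a : Fin k → Mat m) :
    m ^ 2 ≤ finrank ℂ (LinearMap.range (sumMap g a)) + finrank ℂ (orths g a) := by
  set T := LinearMap.range (sumMap g a) with hT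
  have h1 := LinearMap.finrank_range_add_finrank_ker (pair T (1 : Mat m))
  have h2 : LinearMap.ker (pair T (1 : Mat m)) ≤ orths g a := by
    intro Z hZ i x hx
    rw [LinearMap.mem_ker] at hZ
    have h3 : a i * x ∈ T := by
      refine ⟨Pi.single i ⟨x, hx⟩, ?_⟩
      simp only [sumMap, LinearMap.coe_mk, AddHom.coe_mk]
      rw [Finset.sum_eq_single i]
      · simp
      · intro j _ hj
        simp [Pi.single_eq_of_ne hj]
      · simp
    have := congrArg (fun φ : Dual ℂ T => φ ⟨a i * x, h3⟩) hZ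
    simpa [pair_apply] using this
  have h3 := Submodule.finrank_mono h2
  have h4 : finrank ℂ (LinearMap.range (pair T (1 : Mat m))) ≤ finrank ℂ T := by
    rw [← Subspace.dual_finrank_eq (K := ℂ) (V := T)]
    exact Submodule.finrank_le _
  rw [Module.finrank_matrix, Fintype.card_fin, Module.finrank_self, mul_one, ← pow_two] at h1
  omega

/-- **Left cover.**  There are `2 k` linear maps to `g` which write all matrices of a space of
codimension at most `m ^ 2 / 4` as sums of left translates of elements of `g`. -/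
theorem cover_left {H : Set (Mat m)} (hH : Irr H) {g : Submodule ℂ (Mat m)} (hg : Stable H g)
    (hm : 1 ≤ m) {k : ℕ} (hk : m ^ 2 ≤ k * finrank ℂ g) :
    ∃ (T : Submodule ℂ (Mat m)) (a : Fin (2 * k) → Mat m) (x : Fin (2 * k) → (Mat m →ₗ[ℂ] Mat m)),
      3 * m ^ 2 ≤ 4 * finrank ℂ T ∧ (∀ i A, x i A ∈ g) ∧ ∀ A ∈ T, A = ∑ i, a i * x i A := by
  obtain ⟨a, ha⟩ := cover_orths hH hg hm hk
  have h1 := finrank_range_add g a
  obtain ⟨Q, hQ⟩ := LinearMap.exists_rightInverse_of_surjective (sumMap g a).rangeRestrict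
    (LinearMap.range_eq_top.mpr (LinearMap.surjective_rangeRestrict _))
  obtain ⟨Q', hQ'⟩ := LinearMap.exists_extend Q
  refine ⟨LinearMap.range (sumMap g a), a,
    fun i => g.subtype.comp ((LinearMap.proj i).comp Q'), by omega, fun i A => (Q' A i).2, ?_⟩
  intro A hA
  have h2 : Q' A = Q ⟨A, hA⟩ := by
    rw [← hQ']
    rfl
  have h3 := LinearMap.congr_fun hQ ⟨A, hA⟩
  have h4 := congrArg (Subtype.val) h3
  simp only [LinearMap.comp_apply, LinearMap.id_apply] at h4
  change sumMap g a (Q ⟨A, hA⟩) = A at h4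
  conv_lhs => rw [← h4]
  simp only [LinearMap.comp_apply, LinearMap.proj_apply, Submodule.subtype_apply, h2]
  rfl

/-- transposes -/
noncomputable def tr : Mat m →ₗ[ℂ] Mat m := (Matrix.transposeLinearEquiv (Fin m) (Fin m) ℂ ℂ).toLinearMap

lemma tr_apply (x : Mat m) : tr x = x.transpose := rfl

lemma tr_injective : Function.Injective (tr (m := m)) :=
  (Matrix.transposeLinearEquiv (Fin m) (Fin m) ℂ ℂ).injective

lemma irr_transpose {H : Set (Mat m)} (hH : Irr H) : Irr (Matrix.transpose '' H) := by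
  constructor
  · rintro _ ⟨h, hh, rfl⟩
    obtain ⟨h', hh', hhh⟩ := hH.inv h hh
    refine ⟨h'.transpose, ⟨h', hh', rfl⟩, ?_⟩
    rw [← Matrix.transpose_mul, mul_eq_one_comm.mp hhh, Matrix.transpose_one]
  · intro U hU
    -- the annihilator of `U`
    let P : Submodule ℂ (Fin m → ℂ) :=
      { carrier := {v | ∀ u ∈ U, u ⬝ᵥ v = 0}
        add_mem' := by
          intro a b ha hb u hu
          rw [dotProduct_add, ha u hu, hb u hu, add_zero]
        zero_mem' := by
          intro u _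
          exact dotProduct_zero u
        smul_mem' := by
          intro c a ha u hu
          rw [dotProduct_smul, ha u hu, smul_zero] }
    have hP : ∀ h ∈ H, ∀ v ∈ P, h.mulVec v ∈ P := by
      intro h hh v hv u hu
      rw [Matrix.dotProduct_mulVec, ← Matrix.mulVec_transpose]
      exact hv _ (hU _ ⟨h, hh, rfl⟩ u hu)
    rcases hH.irr P hP with h | h
    · right
      by_contra hne
      obtain ⟨φ, hφ0, hφ⟩ := Submodule.exists_le_ker_of_lt_top U (lt_top_iff_ne_top.mpr hne)
      -- the functional is given by a vector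
      let w : Fin m → ℂ := fun i => φ (fun j => if i = j then 1 else 0)
      have hw : ∀ u, φ u = u ⬝ᵥ w := by
        intro u
        rw [LinearMap.pi_apply_eq_sum_univ φ u]
        rfl
      have hwP : w ∈ P := fun u hu => by
        rw [← hw]
        exact hφ hu
      rw [h, Submodule.mem_bot] at hwP
      apply hφ0
      ext u
      rw [hwP] at hw
      simp [hw]
    · left
      rw [eq_bot_iff]
      intro u hu
      rw [Submodule.mem_bot]
      funext i
      have h1 : (Pi.single i 1 : Fin m → ℂ) ∈ P := by rw [h]; trivial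
      simpa using h1 u hu

lemma stable_transpose {H : Set (Mat m)} {g : Submodule ℂ (Mat m)} (hg : Stable H g) :
    Stable (Matrix.transpose '' H) (g.map tr) := by
  rintro _ ⟨a, ha, rfl⟩ _ ⟨b, hb, rfl⟩ hab _ ⟨x, hx, rfl⟩
  have h1 : b * a = 1 := by
    rw [← Matrix.transpose_mul] at hab
    have := congrArg Matrix.transpose hab
    rwa [Matrix.transpose_transpose, Matrix.transpose_one] at this
  refine ⟨b * x * a, hg b hb a ha h1 x hx, ?_⟩
  rw [tr_apply, tr_apply, Matrix.transpose_mul, Matrix.transpose_mul, mul_assoc]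

/-- **Right cover.** -/
theorem cover_right {H : Set (Mat m)} (hH : Irr H) {g : Submodule ℂ (Mat m)} (hg : Stable H g)
    (hm : 1 ≤ m) {k : ℕ} (hk : m ^ 2 ≤ k * finrank ℂ g) :
    ∃ (T : Submodule ℂ (Mat m)) (a : Fin (2 * k) → Mat m) (x : Fin (2 * k) → (Mat m →ₗ[ℂ] Mat m)),
      3 * m ^ 2 ≤ 4 * finrank ℂ T ∧ (∀ i A, x i A ∈ g) ∧ ∀ A ∈ T, A = ∑ i, x i A * a i := by
  have hfin : ∀ S : Submodule ℂ (Mat m), finrank ℂ (S.map tr) = finrank ℂ S := fun S =>
    (Submodule.equivMapOfInjective tr tr_injective S).finrank_eq.symm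
  obtain ⟨T, a, x, hT, hx, hA⟩ := cover_left (irr_transpose hH) (stable_transpose hg) hm
    (k := k) (by rw [hfin]; exact hk)
  refine ⟨T.map tr, fun i => (a i).transpose, fun i => tr.comp ((x i).comp tr),
    by rw [hfin]; exact hT, ?_, ?_⟩
  · intro i A
    obtain ⟨y, hy, hyx⟩ := hx i (tr A)
    simp only [LinearMap.comp_apply]
    rw [← hyx, tr_apply, tr_apply, Matrix.transpose_transpose]
    exact hy
  · rintro _ ⟨A, hAT, rfl⟩
    have h1 := hA A hAT
    simp only [LinearMap.comp_apply, tr_apply, Matrix.transpose_transpose]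
    conv_lhs => rw [h1]
    rw [Matrix.transpose_sum]
    refine Finset.sum_congr rfl fun i _ => ?_
    rw [Matrix.transpose_mul]

end Pool.Agent.Helper343_LG
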