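import Pool.Agent.H515R2.MMR.Main

set_option autoImplicit false

/-!
# Multiplication in linear groups: definitions

`Mat n`, `Aff`, `Aff.eval`, `Step`, `IsRun`, `IsTangent`, `tanSpan` are in
`Pool/Agent/H515R2/MMR/Circ.lean`.
-/

namespace Pool.Agent.Helper343_LG

open Module Pool.Agent.H515R2.MMR

variable {n : ℕ}

/-- the set of the matrices of a group of invertible complex matrices -/
def mats (G : Subgroup (GL (Fin n) ℂ)) : Set (Mat n) := {A | ∃ g ∈ G, (g : Mat n) = A}

/-- the subspace `V` is invariant under the group `G` -/
def Invariant (G : Subgroup (GL (Fin n) ℂ)) (V : Submodule ℂ (Fin n → ℂ)) : Prop :=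
  ∀ g ∈ G, ∀ v ∈ V, (g : Mat n).mulVec v ∈ V

/-- `G` acts irreducibly: the only invariant subspaces are `0` and the whole space -/
def Irreducible (G : Subgroup (GL (Fin n) ℂ)) : Prop :=
  ∀ V : Submodule ℂ (Fin n → ℂ), Invariant G V → V = ⊥ ∨ V = ⊤

/-- `G` acts completely reducibly: every invariant subspace has an invariant complement -/
def CompletelyReducible (G : Subgroup (GL (Fin n) ℂ)) : Prop :=
  ∀ V : Submodule ℂ (Fin n → ℂ), Invariant G V → ∃ W, Invariant G W ∧ IsCompl V W

/-- the dimension of the complex span of the tangent vectors of `G` at the unit matrix; for a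
closed complex or real Lie subgroup this is the dimension of the complex span of its Lie algebra,
for an algebraic group its dimension -/
noncomputable def dimC (G : Subgroup (GL (Fin n) ℂ)) : ℕ := finrank ℂ (tanSpan (mats G) 1)

/-- the run of the program with the steps `s 0, …, s (L-1)` on the input `(A, B)` is defined (no
division by zero) and the affine forms `o i j` in the inputs and the results of the steps are the
entries of `A * B` -/
def Gives (L : ℕ) (s : ℕ → Step n) (o : Fin n → Fin n → Aff n) (A B : Mat n) : Prop :=
  ∃ v, IsRun L s A B v ∧ ∀ i j, (A * B) i j = (o i j).eval L A B v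

end Pool.Agent.Helper343_LG
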