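import Pool.Agent.Helper343_LG.Tan
import Pool.Agent.Helper343_LG.Baire
import Pool.Agent.W956.KF.IntMat
import Pool.Agent.H53R3.One

set_option autoImplicit false

/-!
# Multiplication in linear groups: the final statements
-/

namespace Pool.Agent.Helper343_LG

open Module Pool.Agent.H515R2.MMR Filter Topology

variable {n : ℕ}

/-- the least number of multiplications and divisions of a program (additions, multiplications by
constants are free) which computes `A * B` for all `A`, `B` in the group -/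
noncomputable def cost (G : Subgroup (GL (Fin n) ℂ)) : ℕ := Lprog (mats G) (mats G) ⊤

/-- two irreducible groups -/
theorem irreducible_bound {G₁ G₂ : Subgroup (GL (Fin n) ℂ)} (hn : 1 ≤ n) (hI₁ : Irreducible G₁)
    (hI₂ : Irreducible G₂) {L : ℕ}
    (hr : HasRestrRank (tanSpan (mats G₁) 1) (tanSpan (mats G₂) 1) ⊤ (L * 2)) :
    (dimC G₁ / (n : ℝ) ^ 2) * (dimC G₂ / (n : ℝ) ^ 2) / 32 * ((n : ℝ) / 6) ^ omega ≤ L := by
  have := rank_density (irr_of hI₁) (irr_of hI₂) stable_tan stable_tan hn hr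
  push_cast at this
  unfold dimC
  linarith

/-- completely reducible groups -/
theorem reducible_bound {G : Subgroup (GL (Fin n) ℂ)} (hn : 1 ≤ n) (hG : CompletelyReducible G)
    {L : ℕ} (hr : HasRestrRank (tanSpan (mats G) 1) (tanSpan (mats G) 1) ⊤ (L * 2)) :
    ((dimC G : ℝ) / (6 * n)) ^ omega / 32 ≤ L := by
  have := rank_reductive (cr_of hG) stable_tan (fun V hV x hx => tan_preserves V hV hx) hn hr
  push_cast at this
  unfold dimC
  linarith

/-- one program for all pairs -/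
theorem rank_of_computes {G₁ G₂ : Subgroup (GL (Fin n) ℂ)} {L : ℕ} {s : ℕ → Step n}
    (hc : Computes L s (mats G₁) (mats G₂) ⊤) :
    HasRestrRank (tanSpan (mats G₁) 1) (tanSpan (mats G₂) 1) ⊤ (L * 2) := by
  refine rank_at_one (O₁ := Set.univ) (O₂ := Set.univ) isOpen_univ isOpen_univ one_mem_mats
    trivial one_mem_mats trivial (s := s) ?_
  rwa [Set.inter_univ, Set.inter_univ]

/-- countably many programs -/
theorem rank_of_countable {G₁ G₂ : Subgroup (GL (Fin n) ℂ)} (h₁ : IsLocallyClosed (mats G₁))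
    (h₂ : IsLocallyClosed (mats G₂)) {O : Set (Mat n × Mat n)} (hO : IsOpen O)
    (hne : ∃ A ∈ mats G₁, ∃ B ∈ mats G₂, (A, B) ∈ O) {L : ℕ} {s : ℕ → ℕ → Step n}
    {o : ℕ → Fin n → Fin n → Aff n}
    (hall : ∀ A ∈ mats G₁, ∀ B ∈ mats G₂, (A, B) ∈ O → ∃ i, Gives L (s i) (o i) A B) :
    HasRestrRank (tanSpan (mats G₁) 1) (tanSpan (mats G₂) 1) ⊤ (L * 2) := by
  obtain ⟨i, O₁, O₂, a, b, hO₁, hO₂, ha, haO, hb, hbO, hc⟩ :=
    exists_program h₁ h₂ hO hne hall
  exact rank_at_one hO₁ hO₂ ha haO hb hbO hc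

theorem cost_le_rk (G : Subgroup (GL (Fin n) ℂ)) : cost G ≤ rk n := Lprog_le_rk _ _ _

theorem cost_lower {ε : ℝ} (hε : 0 < ε) (hn : 1 ≤ n) {G : Subgroup (GL (Fin n) ℂ)}
    (hG : CompletelyReducible G) (hd : ε * (n : ℝ) ^ 2 ≤ dimC G) :
    (ε / 6) ^ omega / 32 * (n : ℝ) ^ omega ≤ cost G := by
  have hn' : (0 : ℝ) < n := by exact_mod_cast hn
  obtain ⟨s, hs⟩ := Lprog_spec (mats G) (mats G) ⊤
  refine le_trans ?_ (reducible_bound hn hG (rank_of_computes hs))
  have h1 : ε / 6 * n ≤ (dimC G : ℝ) / (6 * n) := by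
    rw [le_div_iff₀ (by positivity)]
    calc ε / 6 * n * (6 * n) = ε * (n : ℝ) ^ 2 := by ring
      _ ≤ _ := hd
  have h2 := Real.rpow_le_rpow (by positivity) h1 omega_nonneg
  rw [Real.mul_rpow (by positivity) (by positivity)] at h2
  linarith

/-- the exponent of the multiplication in large completely reducible groups -/
theorem exponent_groups {ε : ℝ} (hε : 0 < ε) (G : ∀ n : ℕ, Subgroup (GL (Fin n) ℂ))
    (hG : ∀ n, 1 ≤ n → CompletelyReducible (G n) ∧ ε * (n : ℝ) ^ 2 ≤ dimC (G n)) :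
    sInf {τ : ℝ | ∃ C : ℝ, ∀ n : ℕ, (cost (G n) : ℝ) ≤ C * (n : ℝ) ^ τ} = omega := by
  refine exponent_of_bounds ((ε / 6) ^ omega / 32) (by positivity) (fun n hn => ?_)
    fun n => cost_le_rk _
  exact cost_lower hε hn (hG n hn).1 (hG n hn).2

theorem omega_eq_kf : Pool.Agent.H826R3.SM.omegaMM ℂ = omega := rfl

/-- the question for circuits is equivalent to the question for the groups -/
theorem superlinear_iff {ε : ℝ} (hε : 0 < ε) (G : ∀ n : ℕ, Subgroup (GL (Fin n) ℂ))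
    (hG : ∀ n, 1 ≤ n → CompletelyReducible (G n) ∧ ε * (n : ℝ) ^ 2 ≤ dimC (G n)) :
    Pool.Agent.W956.KF.Superlinear (Pool.Agent.W956.KF.sizeMM ℂ) ↔
      Pool.Agent.W956.KF.Superlinear (fun n => cost (G n)) := by
  obtain ⟨_, _, _, _, _, _, _, h, _⟩ := Pool.Agent.W956.KF.part_three ℂ
  rw [h, omega_eq_kf]
  constructor
  · intro hω
    refine ⟨omega / 2, by linarith, (ε / 6) ^ omega / 32, by positivity, fun n => ?_⟩
    rcases Nat.eq_zero_or_pos n with h0 | hn
    · subst h0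
      have h1 : (((0 : ℕ) : ℝ) ^ 2) ^ (omega / 2) = 0 := by
        rw [Nat.cast_zero, zero_pow two_ne_zero, Real.zero_rpow (by linarith)]
      rw [h1, mul_zero]
      positivity
    · have h1 := cost_lower hε hn (hG n hn).1 (hG n hn).2
      have h2 : (((n : ℝ) ^ 2) ^ (omega / 2)) = (n : ℝ) ^ omega := by
        rw [← Real.rpow_natCast, ← Real.rpow_mul (by positivity)]
        congr 1
        push_cast
        ring
      rw [h2]
      exact h1
  · rintro ⟨α, hα, c, hc, H⟩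
    by_contra hcon
    push Not at hcon
    -- `cost ≤ rk ≤ C n ^ τ` for some `τ < 2 α`
    have hlt : omega < 2 * α := by linarith
    obtain ⟨τ, ⟨C, hC⟩, hτ⟩ := exists_lt_of_csInf_lt omega_set_nonempty hlt
    have t := (tendsto_rpow_atTop (y := 2 * α - τ) (by linarith)).comp
      (tendsto_natCast_atTop_atTop (R := ℝ))
    obtain ⟨n, hn1, hn2⟩ := ((t.eventually (eventually_gt_atTop (C / c))).and
      (eventually_ge_atTop 1)).exists
    simp only [Function.comp] at hn1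
    have hn0 : (0 : ℝ) < n := by exact_mod_cast hn2
    have h1 := H n
    have h2 : (cost (G n) : ℝ) ≤ C * (n : ℝ) ^ τ :=
      le_trans (by exact_mod_cast cost_le_rk (G n)) (hC n)
    have h3 : (((n : ℝ) ^ 2) ^ α) = (n : ℝ) ^ (2 * α - τ) * (n : ℝ) ^ τ := by
      rw [← Real.rpow_add hn0, ← Real.rpow_natCast, ← Real.rpow_mul hn0.le]
      congr 1
      push_cast
      ring
    rw [h3, ← mul_assoc] at h1
    have h4 := le_of_mul_le_mul_right (h1.trans h2) (Real.rpow_pos_of_pos hn0 _)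
    rw [div_lt_iff₀ hc] at hn1
    nlinarith

/-! ### Sharpness -/

/-- the group of the matrices `1 + N`, `N` in a space with zero products -/
def unip (V : Submodule ℂ (Mat n)) (hV : ∀ A ∈ V, ∀ B ∈ V, A * B = 0) :
    Subgroup (GL (Fin n) ℂ) where
  carrier := {g | (g : Mat n) - 1 ∈ V}
  mul_mem' := by
    intro a b ha hb
    change ((a * b : GL (Fin n) ℂ) : Mat n) - 1 ∈ V
    have h1 : ((a * b : GL (Fin n) ℂ) : Mat n) - 1 =
        ((a : Mat n) - 1) * ((b : Mat n) - 1) + (((a : Mat n) - 1) + ((b : Mat n) - 1)) := by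
      rw [Units.val_mul]
      noncomm_ring
    rw [h1, hV _ ha _ hb, zero_add]
    exact V.add_mem ha hb
  one_mem' := by
    change ((1 : GL (Fin n) ℂ) : Mat n) - 1 ∈ V
    rw [Units.val_one, sub_self]
    exact V.zero_mem
  inv_mem' := by
    intro a ha
    change ((a⁻¹ : GL (Fin n) ℂ) : Mat n) - 1 ∈ V
    have h0 := hV _ ha _ ha
    have h1 : (a : Mat n) * (2 - (a : Mat n)) = 1 := by
      have h2 : (a : Mat n) * (2 - (a : Mat n)) = 1 - ((a : Mat n) - 1) * ((a : Mat n) - 1) := by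
        noncomm_ring
      rw [h2, h0, sub_zero]
    rw [Units.inv_eq_of_mul_eq_one_right h1]
    have h3 : (2 - (a : Mat n)) - 1 = -((a : Mat n) - 1) := by
      rw [← one_add_one_eq_two]
      abel
    rw [h3]
    exact V.neg_mem ha

theorem mem_unip {V : Submodule ℂ (Mat n)} (hV : ∀ A ∈ V, ∀ B ∈ V, A * B = 0) {N : Mat n}
    (hN : N ∈ V) : 1 + N ∈ mats (unip V hV) := by
  have h1 : (1 + N) * (1 - N) = 1 := by
    have : (1 + N) * (1 - N) = 1 - N * N := by noncomm_ring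
    rw [this, hV N hN N hN, sub_zero]
  have h2 : (1 - N) * (1 + N) = 1 := by
    have : (1 - N) * (1 + N) = 1 - N * N := by noncomm_ring
    rw [this, hV N hN N hN, sub_zero]
  refine ⟨⟨1 + N, 1 - N, h1, h2⟩, ?_, rfl⟩
  change (1 + N) - 1 ∈ V
  rw [add_sub_cancel_left]
  exact hN

theorem le_dimC_unip {V : Submodule ℂ (Mat n)} (hV : ∀ A ∈ V, ∀ B ∈ V, A * B = 0) :
    finrank ℂ V ≤ dimC (unip V hV) := by
  apply Submodule.finrank_mono
  intro N hN
  apply Submodule.subset_span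
  have h0 : ∀ k : ℕ, (((1 : ℝ) / ((k : ℝ) + 1) : ℝ) : ℂ) ≠ 0 := fun k =>
    Complex.ofReal_ne_zero.mpr (by positivity)
  have ht : Tendsto (fun k : ℕ => (((1 : ℝ) / ((k : ℝ) + 1) : ℝ) : ℂ)) atTop (𝓝 0) := by
    have h1 := (Complex.continuous_ofReal.tendsto 0).comp
      (tendsto_one_div_add_atTop_nhds_zero_nat (𝕜 := ℝ))
    rw [Complex.ofReal_zero] at h1
    exact h1
  refine ⟨fun k => 1 + (((1 : ℝ) / ((k : ℝ) + 1) : ℝ) : ℂ) • N,
    fun k => (((1 : ℝ) / ((k : ℝ) + 1) : ℝ) : ℂ), fun k => mem_unip hV (V.smul_mem _ hN), h0, ht, ?_⟩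
  refine tendsto_const_nhds.congr fun k => ?_
  rw [add_sub_cancel_left, smul_smul, inv_mul_cancel₀ (h0 k), one_smul]

theorem cost_unip {V : Submodule ℂ (Mat n)} (hV : ∀ A ∈ V, ∀ B ∈ V, A * B = 0) :
    cost (unip V hV) = 0 := by
  rw [← Nat.le_zero]
  refine Nat.sInf_le ⟨fun _ => ⟨false, ⟨0, 0, 0, 0⟩, ⟨0, 0, 0, 0⟩⟩, ?_, ?_⟩
  · intro A _ B _
    exact ⟨0, fun l hl => absurd hl (Nat.not_lt_zero l)⟩
  · intro C _
    let φ : Mat n →ₗ[ℂ] ℂ := (Matrix.traceLinearMap (Fin n) ℂ ℂ).comp (LinearMap.mulRight ℂ C)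
    refine ⟨⟨-C.trace, φ, φ, 0⟩, ?_⟩
    rintro _ ⟨a, ha, rfl⟩ _ ⟨b, hb, rfl⟩ v _
    have h1 : (a : Mat n) * (b : Mat n) = (a : Mat n) + (b : Mat n) - 1 := by
      have h2 := hV _ ha _ hb
      have h3 : (a : Mat n) * (b : Mat n) = ((a : Mat n) - 1) * ((b : Mat n) - 1) +
          ((a : Mat n) + (b : Mat n) - 1) := by noncomm_ring
      rw [h3, h2, zero_add]
    rw [h1, sub_mul, add_mul, one_mul, Matrix.trace_sub, Matrix.trace_add]
    simp only [Aff.eval, Finset.range_zero, Finset.sum_empty, φ, LinearMap.comp_apply,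
      LinearMap.mulRight_apply, Matrix.traceLinearMap_apply]
    ring

/-- complete reducibility cannot be omitted -/
theorem exists_free (n : ℕ) : ∃ G : Subgroup (GL (Fin n) ℂ), n ^ 2 / 4 ≤ dimC G ∧ cost G = 0 := by
  have hV : ∀ A ∈ Pool.Agent.H53R3.blockS n (n / 2), ∀ B ∈ Pool.Agent.H53R3.blockS n (n / 2),
      A * B = 0 := fun A hA B hB => Pool.Agent.H53R3.blockS_mul hA hB
  refine ⟨unip _ hV, le_trans ?_ (le_dimC_unip hV), cost_unip hV⟩
  refine le_trans ?_ (Pool.Agent.H53R3.finrank_blockS (Nat.div_le_self n 2))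
  rcases Nat.even_or_odd' n with ⟨m, rfl | rfl⟩
  · have e1 : 2 * m / 2 = m := by omega
    have e2 : (2 * m) ^ 2 / 4 = m * m := by
      have : (2 * m) ^ 2 = 4 * (m * m) := by ring
      omega
    rw [e1, e2]
    have : 2 * m - m = m := by omega
    rw [this]
  · have e1 : (2 * m + 1) / 2 = m := by omega
    have e2 : (2 * m + 1) ^ 2 / 4 = m * (m + 1) := by
      have : (2 * m + 1) ^ 2 = 4 * (m * (m + 1)) + 1 := by ring
      omega
    rw [e1, e2]
    have : 2 * m + 1 - m = m + 1 := by omega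
    rw [this]

end Pool.Agent.Helper343_LG
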