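import Pool.Agent.Helper343_LG.HN

set_option autoImplicit false

/-!
# A few left translates of a large stable space almost span all matrices
-/

namespace Pool.Agent.Helper343_LG

open Module Pool.Agent.H515R2.MMR Filter Topology

variable {m : ℕ}

/-- the map `Z ↦ (x ↦ trace (a x Z))` to the dual of `g` -/
noncomputable def pair (g : Submodule ℂ (Mat m)) (a : Mat m) : Mat m →ₗ[ℂ] Dual ℂ g where
  toFun Z :=
    { toFun := fun x => (a * x * Z).trace
      map_add' := fun x y => by
        rw [Submodule.coe_add, mul_add, add_mul, Matrix.trace_add]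
      map_smul' := fun c x => by
        rw [Submodule.coe_smul, Matrix.mul_smul, Matrix.smul_mul, Matrix.trace_smul]
        rfl }
  map_add' Z W := by
    ext x
    simp [mul_add, Matrix.trace_add]
  map_smul' c Z := by
    ext x
    simp [Matrix.trace_smul]

lemma pair_apply (g : Submodule ℂ (Mat m)) (a Z : Mat m) (x : g) :
    pair g a Z x = (a * (x : Mat m) * Z).trace := rfl

lemma pair_add_smul (g : Submodule ℂ (Mat m)) (a c Z : Mat m) (t : ℂ) :
    pair g (a + t • c) Z = pair g a Z + t • pair g c Z := by
  ext x
  simp only [pair_apply, LinearMap.add_apply, LinearMap.smul_apply, smul_eq_mul]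
  rw [add_mul, add_mul, Matrix.smul_mul, Matrix.smul_mul, Matrix.trace_add, Matrix.trace_smul]
  rfl

/-- the perturbation lemma: at a maximal rank the kernel is mapped into the image -/
lemma pair_max (g S : Submodule ℂ (Mat m)) {a : Mat m}
    (ha : ∀ b, finrank ℂ (S.map (pair g b)) ≤ finrank ℂ (S.map (pair g a)))
    {Z : Mat m} (hZ : Z ∈ S) (hZ0 : pair g a Z = 0) (c : Mat m) :
    pair g c Z ∈ S.map (pair g a) := by
  by_contra hcon
  let b := Module.finBasis ℂ (S.map (pair g a))
  have hb : ∀ i, ∃ Y ∈ S, pair g a Y = b i := fun i => (b i).2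
  choose Y hYS hY using hb
  have hli : LinearIndependent ℂ (fun i => ((b i : S.map (pair g a)) : Dual ℂ g)) :=
    b.linearIndependent.map' (Submodule.subtype _) (Submodule.ker_subtype _)
  have hspan : Submodule.span ℂ (Set.range fun i => ((b i : S.map (pair g a)) : Dual ℂ g)) ≤
      S.map (pair g a) := by
    rw [Submodule.span_le]
    rintro _ ⟨i, rfl⟩
    exact (b i).2
  have hopt := hli.option (x := pair g c Z) (fun h => hcon (hspan h))
  let e := (Module.finBasis ℂ (Dual ℂ g)).equivFun
  let v : ℂ → Option (Fin (finrank ℂ (S.map (pair g a)))) → Dual ℂ g := fun t o =>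
    Option.casesOn' o (pair g c Z) (fun i => ((b i : S.map (pair g a)) : Dual ℂ g) +
      t • pair g c (Y i))
  have hv0 : LinearIndependent ℂ (fun o => e (v 0 o)) := by
    have h1 : LinearIndependent ℂ (v 0) := by
      have h2 : v 0 = fun o => Option.casesOn' o (pair g c Z)
          (fun i => ((b i : S.map (pair g a)) : Dual ℂ g)) := by
        funext o
        cases o with
        | none => rfl
        | some i => simp only [v, Option.casesOn'_some, zero_smul, add_zero]
      rw [h2]
      exact hopt
    exact h1.map' e.toLinearMap e.ker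
  have hcont : Continuous fun t : ℂ => fun o => e (v t o) := by
    refine continuous_pi fun o => ?_
    cases o with
    | none =>
      have : (fun t : ℂ => e (v t none)) = fun _ : ℂ => e (pair g c Z) := rfl
      rw [this]
      exact continuous_const
    | some i =>
      have : (fun t : ℂ => e (v t (some i))) = fun t : ℂ =>
          e ((b i : S.map (pair g a)) : Dual ℂ g) + t • e (pair g c (Y i)) := by
        funext t
        simp only [v, Option.casesOn'_some, map_add, map_smul]
      rw [this]
      exact continuous_const.add (continuous_id.smul continuous_const)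
  have hopen : IsOpen {f : Option (Fin (finrank ℂ (S.map (pair g a)))) →
      (Fin (finrank ℂ (Dual ℂ g)) → ℂ) | LinearIndependent ℂ f} :=
    isOpen_setOfPred_linearIndependent
  have hev : ∀ᶠ t in 𝓝 (0 : ℂ), LinearIndependent ℂ (fun o => e (v t o)) :=
    hcont.continuousAt.eventually (hopen.mem_nhds hv0)
  have hev2 : ∀ᶠ t in 𝓝[≠] (0 : ℂ), LinearIndependent ℂ (fun o => e (v t o)) ∧ t ≠ 0 :=
    (hev.filter_mono nhdsWithin_le_nhds).and eventually_mem_nhdsWithin
  obtain ⟨t, ht, ht0⟩ := hev2.exists
  have hvt : LinearIndependent ℂ (v t) := LinearIndependent.of_comp e.toLinearMap ht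
  have hmem : ∀ o, v t o ∈ S.map (pair g (a + t • c)) := by
    intro o
    cases o with
    | none =>
      refine ⟨t⁻¹ • Z, S.smul_mem _ hZ, ?_⟩
      rw [map_smul, pair_add_smul, hZ0, zero_add, smul_smul, inv_mul_cancel₀ ht0, one_smul]
      rfl
    | some i =>
      refine ⟨Y i, hYS i, ?_⟩
      rw [pair_add_smul, hY]
      rfl
  have h1 := finrank_span_eq_card hvt
  have h2 : Submodule.span ℂ (Set.range (v t)) ≤ S.map (pair g (a + t • c)) := by
    rw [Submodule.span_le]
    rintro _ ⟨o, rfl⟩
    exact hmem o
  have h3 := Submodule.finrank_mono h2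
  rw [h1, Fintype.card_option, Fintype.card_fin] at h3
  have h4 := ha (a + t • c)
  omega

/-- matrices which are orthogonal to `a g` in `S` -/
noncomputable def orth (g S : Submodule ℂ (Mat m)) (a : Mat m) : Submodule ℂ (Mat m) :=
  S ⊓ LinearMap.ker (pair g a)

/-- the span of the images of the matrices of a space -/
noncomputable def im (S : Submodule ℂ (Mat m)) : Submodule ℂ (Fin m → ℂ) :=
  Submodule.span ℂ {w | ∃ Z ∈ S, ∃ v, w = Z.mulVec v}

lemma finrank_le_im (S : Submodule ℂ (Mat m)) : finrank ℂ S ≤ m * finrank ℂ (im S) := by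
  let f : S →ₗ[ℂ] (Fin m → im S) :=
    { toFun := fun Z j => ⟨(Z : Mat m).mulVec (Pi.single j 1),
        Submodule.subset_span ⟨Z, Z.2, _, rfl⟩⟩
      map_add' := fun Z W => by
        funext j
        apply Subtype.ext
        simp only [Submodule.coe_add, Matrix.add_mulVec, Pi.add_apply]
      map_smul' := fun c Z => by
        funext j
        apply Subtype.ext
        simp only [Submodule.coe_smul, Matrix.smul_mulVec, Pi.smul_apply, RingHom.id_apply] }
  have hf : Function.Injective f := by
    intro Z W h
    apply Subtype.ext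
    ext i j
    have h1 := congrArg (fun F : Fin m → im S => ((F j : im S) : Fin m → ℂ) i) h
    simpa [f] using h1
  have h1 := LinearMap.finrank_le_finrank_of_injective hf
  rwa [Module.finrank_pi_fintype, Finset.sum_const, Finset.card_univ, Fintype.card_fin,
    smul_eq_mul] at h1

lemma eq_zero_of_trace {M : Mat m} (h : ∀ c : Mat m, (c * M).trace = 0) : M = 0 := by
  ext i j
  have := h (Matrix.single j i 1)
  rw [Matrix.trace_mul_comm] at this
  simpa [Matrix.trace_mul_single] using this

/-- **One step.** -/
theorem step {H : Set (Mat m)} (hH : Irr H) {g : Submodule ℂ (Mat m)} (hg : Stable H g)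
    (S : Submodule ℂ (Mat m)) : ∃ a : Mat m,
    (m ^ 2 + finrank ℂ g) * finrank ℂ (orth g S a) ≤ m ^ 2 * finrank ℂ S := by
  obtain ⟨a, ha⟩ : ∃ a, ∀ b, finrank ℂ (S.map (pair g b)) ≤ finrank ℂ (S.map (pair g a)) := by
    let f : Mat m → ℕ := fun b => finrank ℂ S - finrank ℂ (S.map (pair g b))
    obtain ⟨a, ha⟩ : ∃ a, ∀ b, f a ≤ f b := ⟨Function.argmin f, fun b => Function.argmin_le f b⟩
    refine ⟨a, fun b => ?_⟩
    have h1 := ha b
    have h2 := Submodule.finrank_map_le (pair g b) S
    have h3 := Submodule.finrank_map_le (pair g a) S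
    simp only [f] at h1
    omega
  refine ⟨a, ?_⟩
  -- rank and nullity
  have hrn : finrank ℂ (S.map (pair g a)) + finrank ℂ (orth g S a) = finrank ℂ S := by
    have h1 := LinearMap.finrank_range_add_finrank_ker ((pair g a).domRestrict S)
    rw [LinearMap.range_domRestrict] at h1
    rw [← h1]
    congr 1
    have h2 : (LinearMap.ker ((pair g a).domRestrict S)).map S.subtype = orth g S a := by
      ext Z
      unfold orth
      simp only [Submodule.mem_map, LinearMap.mem_ker, LinearMap.domRestrict_apply,
        Submodule.subtype_apply, Subtype.exists, Submodule.mem_inf]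
      constructor
      · rintro ⟨Z', h, h0, rfl⟩
        exact ⟨h, h0⟩
      · rintro ⟨h, h0⟩
        exact ⟨Z, h, h0, rfl⟩
    rw [← h2]
    exact (Submodule.equivMapOfInjective S.subtype S.injective_subtype _).finrank_eq.symm
  set R := S.map (pair g a) with hR
  have hco := Subspace.finrank_add_finrank_dualCoannihilator_eq R
  -- the right kernel kills the images of the left kernel
  have hkill : (R.dualCoannihilator).map g.subtype ≤ g ⊓ ann (im (orth g S a)) := by
    rintro _ ⟨x, hx, rfl⟩
    refine ⟨x.2, ?_⟩
    have hx' := (Submodule.mem_dualCoannihilator x).mp hx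
    have hxZ : ∀ Z ∈ orth g S a, (x : Mat m) * Z = 0 := by
      intro Z hZ
      apply eq_zero_of_trace
      intro c
      have := hx' _ (pair_max g S ha hZ.1 (LinearMap.mem_ker.mp hZ.2) c)
      rw [pair_apply] at this
      rw [← mul_assoc]
      exact this
    intro u hu
    unfold im at hu
    induction hu using Submodule.span_induction with
    | mem u hu =>
      obtain ⟨Z, hZ, v, rfl⟩ := hu
      rw [Submodule.subtype_apply, Matrix.mulVec_mulVec, hxZ Z hZ, Matrix.zero_mulVec]
    | zero => exact Matrix.mulVec_zero _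
    | add u v _ _ h1 h2 => rw [Matrix.mulVec_add, h1, h2, add_zero]
    | smul c u _ h1 => rw [Matrix.mulVec_smul, h1, smul_zero]
  have hk := Submodule.finrank_mono hkill
  rw [← (Submodule.equivMapOfInjective g.subtype g.injective_subtype _).finrank_eq] at hk
  have hpot := pot_nonneg hH hg (im (orth g S a))
  have hS' := finrank_le_im (orth g S a)
  unfold pot at hpot
  have hgle : finrank ℂ (g ⊓ ann (im (orth g S a)) : Submodule ℂ (Mat m)) ≤ finrank ℂ g :=
    Submodule.finrank_mono inf_le_left
  -- arithmetic
  have h1 : finrank ℂ g * finrank ℂ (im (orth g S a)) ≤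
      m * (finrank ℂ g - finrank ℂ (g ⊓ ann (im (orth g S a)) : Submodule ℂ (Mat m))) := by
    zify [hgle]
    linarith
  have h2 : finrank ℂ g - finrank ℂ (g ⊓ ann (im (orth g S a)) : Submodule ℂ (Mat m)) ≤
      finrank ℂ S - finrank ℂ (orth g S a) := by omega
  have h3 : finrank ℂ g * finrank ℂ (orth g S a) ≤
      m ^ 2 * (finrank ℂ S - finrank ℂ (orth g S a)) := by
    calc finrank ℂ g * finrank ℂ (orth g S a)
        ≤ finrank ℂ g * (m * finrank ℂ (im (orth g S a))) := Nat.mul_le_mul_left _ hS'
      _ = m * (finrank ℂ g * finrank ℂ (im (orth g S a))) := by ring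
      _ ≤ m * (m * (finrank ℂ g -
          finrank ℂ (g ⊓ ann (im (orth g S a)) : Submodule ℂ (Mat m)))) :=
          Nat.mul_le_mul_left _ h1
      _ ≤ m * (m * (finrank ℂ S - finrank ℂ (orth g S a))) :=
          Nat.mul_le_mul_left _ (Nat.mul_le_mul_left _ h2)
      _ = _ := by ring
  have h4 : finrank ℂ (orth g S a) ≤ finrank ℂ S := by omega
  calc (m ^ 2 + finrank ℂ g) * finrank ℂ (orth g S a)
      = m ^ 2 * finrank ℂ (orth g S a) + finrank ℂ g * finrank ℂ (orth g S a) := by ring
    _ ≤ m ^ 2 * finrank ℂ (orth g S a) + m ^ 2 * (finrank ℂ S - finrank ℂ (orth g S a)) :=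
        Nat.add_le_add_left h3 _
    _ = m ^ 2 * (finrank ℂ (orth g S a) + (finrank ℂ S - finrank ℂ (orth g S a))) := by ring
    _ = m ^ 2 * finrank ℂ S := by rw [Nat.add_sub_cancel' h4]

end Pool.Agent.Helper343_LG
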