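import Pool.Agent.H515R2.MMR.Main

set_option autoImplicit false

/-!
# Spaces of matrices stable under conjugation by an irreducible set of matrices
-/

namespace Pool.Agent.Helper343_LG

open Module Pool.Agent.H515R2.MMR

variable {m : ℕ}

/-- a set of invertible matrices, closed under inverses, which acts irreducibly -/
structure Irr (H : Set (Mat m)) : Prop where
  inv : ∀ h ∈ H, ∃ h' ∈ H, h * h' = 1
  irr : ∀ U : Submodule ℂ (Fin m → ℂ), (∀ h ∈ H, ∀ u ∈ U, h.mulVec u ∈ U) → U = ⊥ ∨ U = ⊤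

/-- stability under conjugation -/
def Stable (H : Set (Mat m)) (g : Submodule ℂ (Mat m)) : Prop :=
  ∀ h ∈ H, ∀ h' ∈ H, h * h' = 1 → ∀ x ∈ g, h * x * h' ∈ g

/-- matrices which vanish on a subspace -/
def ann (U : Submodule ℂ (Fin m → ℂ)) : Submodule ℂ (Mat m) where
  carrier := {x | ∀ u ∈ U, x.mulVec u = 0}
  add_mem' := by
    intro a b ha hb u hu
    rw [Matrix.add_mulVec, ha u hu, hb u hu, add_zero]
  zero_mem' := by
    intro u _
    exact Matrix.zero_mulVec u
  smul_mem' := by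
    intro c x hx u hu
    rw [Matrix.smul_mulVec, hx u hu, smul_zero]

lemma mem_ann {U : Submodule ℂ (Fin m → ℂ)} {x : Mat m} :
    x ∈ ann U ↔ ∀ u ∈ U, x.mulVec u = 0 := Iff.rfl

lemma ann_sup (U W : Submodule ℂ (Fin m → ℂ)) : ann (U ⊔ W) = ann U ⊓ ann W := by
  ext x
  rw [Submodule.mem_inf, mem_ann, mem_ann, mem_ann]
  constructor
  · intro h
    exact ⟨fun u hu => h u (Submodule.mem_sup_left hu), fun u hu => h u (Submodule.mem_sup_right hu)⟩
  · rintro ⟨h1, h2⟩ u hu
    obtain ⟨a, ha, b, hb, rfl⟩ := Submodule.mem_sup.mp hu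
    rw [Matrix.mulVec_add, h1 a ha, h2 b hb, add_zero]

lemma ann_mono {U W : Submodule ℂ (Fin m → ℂ)} (h : U ≤ W) : ann W ≤ ann U :=
  fun _ hx u hu => hx u (h hu)

lemma ann_top : ann (⊤ : Submodule ℂ (Fin m → ℂ)) = ⊥ := by
  rw [eq_bot_iff]
  intro x hx
  rw [Submodule.mem_bot]
  ext i j
  have := congr_fun (hx (Pi.single j 1) trivial) i
  simpa using this

lemma ann_bot : ann (⊥ : Submodule ℂ (Fin m → ℂ)) = ⊤ := by
  rw [eq_top_iff]
  intro x _ u hu
  rw [(Submodule.mem_bot ℂ).mp hu, Matrix.mulVec_zero]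

/-- the potential `m dim (g restricted to U) - dim g dim U` -/
noncomputable def pot (g : Submodule ℂ (Mat m)) (U : Submodule ℂ (Fin m → ℂ)) : ℤ :=
  (m : ℤ) * ((finrank ℂ g : ℤ) - finrank ℂ (g ⊓ ann U : Submodule ℂ (Mat m))) -
    (finrank ℂ g : ℤ) * finrank ℂ U

lemma pot_bot (g : Submodule ℂ (Mat m)) : pot g ⊥ = 0 := by
  unfold pot
  rw [ann_bot, inf_top_eq, finrank_bot]
  simp

lemma pot_top (g : Submodule ℂ (Mat m)) : pot g ⊤ = 0 := by
  unfold pot
  rw [ann_top, inf_bot_eq, finrank_bot, finrank_top, Module.finrank_fin_fun]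
  push_cast
  ring

lemma pot_submodular (g : Submodule ℂ (Mat m)) (U W : Submodule ℂ (Fin m → ℂ)) :
    pot g (U ⊔ W) + pot g (U ⊓ W) ≤ pot g U + pot g W := by
  have h1 := Submodule.finrank_sup_add_finrank_inf_eq U W
  have h2 := Submodule.finrank_sup_add_finrank_inf_eq (g ⊓ ann U) (g ⊓ ann W)
  have h3 : (g ⊓ ann U) ⊓ (g ⊓ ann W) = g ⊓ ann (U ⊔ W) := by
    rw [ann_sup]
    exact (inf_inf_distrib_left g (ann U) (ann W)).symm
  have h4 : (g ⊓ ann U) ⊔ (g ⊓ ann W) ≤ g ⊓ ann (U ⊓ W) :=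
    sup_le (inf_le_inf_left g (ann_mono inf_le_left)) (inf_le_inf_left g (ann_mono inf_le_right))
  have h5 := Submodule.finrank_mono h4
  rw [h3] at h2
  unfold pot
  have h6 : (finrank ℂ (U ⊔ W : Submodule ℂ (Fin m → ℂ)) : ℤ) +
      finrank ℂ (U ⊓ W : Submodule ℂ (Fin m → ℂ)) = finrank ℂ U + finrank ℂ W := by
    exact_mod_cast h1
  have h7 : (finrank ℂ (g ⊓ ann U : Submodule ℂ (Mat m)) : ℤ) +
      finrank ℂ (g ⊓ ann W : Submodule ℂ (Mat m)) ≤
      finrank ℂ (g ⊓ ann (U ⊔ W) : Submodule ℂ (Mat m)) +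
      finrank ℂ (g ⊓ ann (U ⊓ W) : Submodule ℂ (Mat m)) := by
    have h8 : (finrank ℂ (g ⊓ ann U : Submodule ℂ (Mat m))) +
      finrank ℂ (g ⊓ ann W : Submodule ℂ (Mat m)) ≤
      finrank ℂ (g ⊓ ann (U ⊔ W) : Submodule ℂ (Mat m)) +
      finrank ℂ (g ⊓ ann (U ⊓ W) : Submodule ℂ (Mat m)) := by omega
    exact_mod_cast h8
  have h9 : (0 : ℤ) ≤ m := Int.natCast_nonneg m
  nlinarith [mul_le_mul_of_nonneg_left h7 h9, congrArg (fun t : ℤ => (finrank ℂ g : ℤ) * t) h6]

/-- conjugation as a linear map -/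
noncomputable def conj (h h' : Mat m) : Mat m →ₗ[ℂ] Mat m :=
  (LinearMap.mulLeft ℂ h).comp (LinearMap.mulRight ℂ h')

lemma conj_apply (h h' x : Mat m) : conj h h' x = h * x * h' := by
  simp [conj, mul_assoc]

lemma conj_injective {h h' : Mat m} (hh : h * h' = 1) : Function.Injective (conj h h') := by
  have hh' : h' * h = 1 := mul_eq_one_comm.mp hh
  intro x y hxy
  rw [conj_apply, conj_apply] at hxy
  have := congrArg (fun z => h' * z * h) hxy
  simp only [mul_assoc] at this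
  rw [hh'] at this
  simpa only [mul_one, ← mul_assoc, hh', one_mul] using this

lemma mulVecLin_injective {h h' : Mat m} (hh : h * h' = 1) :
    Function.Injective h.mulVecLin := by
  have hh' : h' * h = 1 := mul_eq_one_comm.mp hh
  intro u v huv
  have := congrArg h'.mulVec huv
  simpa [Matrix.mulVec_mulVec, hh'] using this

lemma pot_map (g : Submodule ℂ (Mat m)) {h h' : Mat m} (hh : h * h' = 1)
    (hg : ∀ x ∈ g, h * x * h' ∈ g) (U : Submodule ℂ (Fin m → ℂ)) :
    pot g (U.map h.mulVecLin) ≤ pot g U := by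
  have hh' : h' * h = 1 := mul_eq_one_comm.mp hh
  have h1 : finrank ℂ (U.map h.mulVecLin) = finrank ℂ U :=
    (Submodule.equivMapOfInjective h.mulVecLin (mulVecLin_injective hh) U).finrank_eq.symm
  have h2 : (g ⊓ ann U).map (conj h h') ≤ g ⊓ ann (U.map h.mulVecLin) := by
    rintro _ ⟨x, hx, rfl⟩
    rw [conj_apply]
    refine ⟨hg x hx.1, ?_⟩
    rintro _ ⟨u, hu, rfl⟩
    rw [Matrix.mulVecLin_apply, Matrix.mulVec_mulVec, mul_assoc, hh', mul_one,
      ← Matrix.mulVec_mulVec, hx.2 u hu, Matrix.mulVec_zero]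
  have h3 : finrank ℂ ((g ⊓ ann U).map (conj h h')) =
      finrank ℂ (g ⊓ ann U : Submodule ℂ (Mat m)) :=
    (Submodule.equivMapOfInjective (conj h h') (conj_injective hh) _).finrank_eq.symm
  have h4 := Submodule.finrank_mono h2
  rw [h3] at h4
  unfold pot
  rw [h1]
  have h5 : (finrank ℂ (g ⊓ ann U : Submodule ℂ (Mat m)) : ℤ) ≤
      finrank ℂ (g ⊓ ann (U.map h.mulVecLin) : Submodule ℂ (Mat m)) := by exact_mod_cast h4
  have h9 : (0 : ℤ) ≤ m := Int.natCast_nonneg m
  nlinarith [mul_le_mul_of_nonneg_left h5 h9]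

/-- **The Harder-Narasimhan argument.**  If `g` is stable under conjugation by an irreducible set
of matrices then `m dim (g restricted to U) ≥ dim g dim U` for all subspaces `U`. -/
theorem pot_nonneg {H : Set (Mat m)} (hH : Irr H) {g : Submodule ℂ (Mat m)} (hg : Stable H g)
    (U : Submodule ℂ (Fin m → ℂ)) : 0 ≤ pot g U := by
  -- a minimiser of the potential of largest dimension
  let N : Submodule ℂ (Fin m → ℂ) → ℤ := fun V => pot g V * (m + 1) - finrank ℂ V
  have hfin : ∀ V : Submodule ℂ (Fin m → ℂ), (finrank ℂ V : ℤ) ≤ m := by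
    intro V
    have := Submodule.finrank_le V
    rw [Module.finrank_fin_fun] at this
    exact_mod_cast this
  have hpot : ∀ V : Submodule ℂ (Fin m → ℂ), -((finrank ℂ g : ℤ) * m) ≤ pot g V := by
    intro V
    have h1 : (finrank ℂ (g ⊓ ann V : Submodule ℂ (Mat m)) : ℤ) ≤ finrank ℂ g := by
      exact_mod_cast Submodule.finrank_mono (inf_le_left : g ⊓ ann V ≤ g)
    have h2 := hfin V
    have h9 : (0 : ℤ) ≤ m := Int.natCast_nonneg m
    have h10 : (0 : ℤ) ≤ finrank ℂ g := Int.natCast_nonneg _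
    unfold pot
    nlinarith [mul_le_mul_of_nonneg_left h1 h9, mul_le_mul_of_nonneg_left h2 h10]
  obtain ⟨V, hV⟩ : ∃ V, ∀ W, N V ≤ N W := by
    have hb : ∀ W, -((finrank ℂ g : ℤ) * m * (m + 1) + m) ≤ N W := by
      intro W
      have h1 := hpot W
      have h2 := hfin W
      have h9 : (0 : ℤ) ≤ (m : ℤ) + 1 := by positivity
      simp only [N]
      nlinarith [mul_le_mul_of_nonneg_right h1 h9]
    let f : Submodule ℂ (Fin m → ℂ) → ℕ := fun W =>
      (N W + ((finrank ℂ g : ℤ) * m * (m + 1) + m)).toNat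
    obtain ⟨V, hV⟩ : ∃ V, ∀ W, f V ≤ f W :=
      ⟨Function.argmin f, fun W => Function.argmin_le f W⟩
    refine ⟨V, fun W => ?_⟩
    have h1 := hV W
    simp only [f] at h1
    have h2 := hb W
    have h3 := hb V
    omega
  have hmin : ∀ W, pot g V ≤ pot g W := by
    intro W
    by_contra hcon
    push Not at hcon
    have h1 := hV W
    simp only [N] at h1
    have h2 := hfin V
    have h3 : (0 : ℤ) ≤ finrank ℂ W := Int.natCast_nonneg _
    nlinarith
  have hinv : ∀ h ∈ H, ∀ u ∈ V, h.mulVec u ∈ V := by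
    intro h hh u hu
    obtain ⟨h', hh', hhh⟩ := hH.inv h hh
    have h1 := pot_map g hhh (hg h hh h' hh' hhh) V
    have h2 := pot_submodular g V (V.map h.mulVecLin)
    have h3 := hmin (V ⊓ V.map h.mulVecLin)
    have h4 := hmin (V ⊔ V.map h.mulVecLin)
    have h5 : pot g (V ⊔ V.map h.mulVecLin) = pot g V := by linarith
    have h6 := hV (V ⊔ V.map h.mulVecLin)
    simp only [N] at h6
    rw [h5] at h6
    have h7 : finrank ℂ (V ⊔ V.map h.mulVecLin : Submodule ℂ (Fin m → ℂ)) ≤ finrank ℂ V := by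
      omega
    have h8 : V = V ⊔ V.map h.mulVecLin :=
      Submodule.eq_of_le_of_finrank_le le_sup_left h7
    rw [h8]
    exact Submodule.mem_sup_right ⟨u, hu, rfl⟩
  have h0 : pot g V = 0 := by
    rcases hH.irr V hinv with h | h
    · rw [h, pot_bot]
    · rw [h, pot_top]
  have := hmin U
  omega

end Pool.Agent.Helper343_LG
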