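import Pool.Agent.Helper343_LG.Cover

set_option autoImplicit false

/-!
# The rank of the product on two stable spaces
-/

namespace Pool.Agent.Helper343_LG

open Module Pool.Agent.H515R2.MMR Filter Topology

variable {m : ℕ}

/-- the rank of the product on the spaces which are covered -/
theorem cover_rank {H₁ H₂ : Set (Mat m)} (hH₁ : Irr H₁) (hH₂ : Irr H₂)
    {g₁ g₂ : Submodule ℂ (Mat m)} (hg₁ : Stable H₁ g₁) (hg₂ : Stable H₂ g₂) (hm : 1 ≤ m)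
    {k₁ k₂ : ℕ} (hk₁ : m ^ 2 ≤ k₁ * finrank ℂ g₁) (hk₂ : m ^ 2 ≤ k₂ * finrank ℂ g₂) {r : ℕ}
    (hr : HasRestrRank g₁ g₂ ⊤ r) :
    ∃ T₁ T₂ : Submodule ℂ (Mat m), 3 * m ^ 2 ≤ 4 * finrank ℂ T₁ ∧ 3 * m ^ 2 ≤ 4 * finrank ℂ T₂ ∧
      HasRestrRank T₁ T₂ ⊤ (2 * k₁ * (2 * k₂ * r)) := by
  classical
  obtain ⟨T₁, a, x, hT₁, hx, hA⟩ := cover_left hH₁ hg₁ hm hk₁
  obtain ⟨T₂, b, y, hT₂, hy, hB⟩ := cover_right hH₂ hg₂ hm hk₂
  obtain ⟨f, g, h, hfgh⟩ := hr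
  refine ⟨T₁, T₂, hT₁, hT₂, ?_⟩
  let e : Fin (2 * k₁) × (Fin (2 * k₂) × Fin r) ≃ Fin (2 * k₁ * (2 * k₂ * r)) :=
    (Equiv.prodCongr (Equiv.refl _) finProdFinEquiv).trans finProdFinEquiv
  let F : Fin (2 * k₁) × (Fin (2 * k₂) × Fin r) → (Mat m →ₗ[ℂ] ℂ) :=
    fun p => (f p.2.2).comp (x p.1)
  let G : Fin (2 * k₁) × (Fin (2 * k₂) × Fin r) → (Mat m →ₗ[ℂ] ℂ) :=
    fun p => (g p.2.2).comp (y p.2.1)
  let K : Fin (2 * k₁) × (Fin (2 * k₂) × Fin r) → (Mat m →ₗ[ℂ] ℂ) :=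
    fun p => (h p.2.2).comp (conj (b p.2.1) (a p.1))
  refine ⟨fun t => F (e.symm t), fun t => G (e.symm t), fun t => K (e.symm t), ?_⟩
  intro A hA' B hB' C _
  rw [Equiv.sum_comp e.symm (fun p => F p A * G p B * K p C), Fintype.sum_prod_type]
  have h1 : (A * B * C).trace =
      ∑ i, ∑ j, (x i A * y j B * (b j * C * a i)).trace := by
    conv_lhs => rw [hA A hA', hB B hB']
    rw [Finset.sum_mul_sum, Finset.sum_mul, Matrix.trace_sum]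
    refine Finset.sum_congr rfl fun i _ => ?_
    rw [Finset.sum_mul, Matrix.trace_sum]
    refine Finset.sum_congr rfl fun j _ => ?_
    have : a i * x i A * (y j B * b j) * C = a i * (x i A * y j B * (b j * C)) := by
      simp only [mul_assoc]
    rw [this, Matrix.trace_mul_comm]
    simp only [mul_assoc]
  rw [h1]
  refine Finset.sum_congr rfl fun i _ => ?_
  rw [Fintype.sum_prod_type]
  refine Finset.sum_congr rfl fun j _ => ?_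
  rw [hfgh _ (hx i A) _ (hy j B) _ trivial]
  refine Finset.sum_congr rfl fun t _ => ?_
  simp only [F, G, K, LinearMap.comp_apply, conj_apply]

theorem rank_two {H₁ H₂ : Set (Mat m)} (hH₁ : Irr H₁) (hH₂ : Irr H₂)
    {g₁ g₂ : Submodule ℂ (Mat m)} (hg₁ : Stable H₁ g₁) (hg₂ : Stable H₂ g₂)
    {k₁ k₂ : ℕ} (hk₁ : m ^ 2 ≤ k₁ * finrank ℂ g₁) (hk₂ : m ^ 2 ≤ k₂ * finrank ℂ g₂) {r : ℕ}
    (hr : HasRestrRank g₁ g₂ ⊤ r) {q : ℕ} (hq : 6 * q < m) :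
    ((q : ℝ) + 1) ^ omega ≤ 4 * k₁ * k₂ * r := by
  have hm : 1 ≤ m := by omega
  obtain ⟨T₁, T₂, hT₁, hT₂, hT⟩ := cover_rank hH₁ hH₂ hg₁ hg₂ hm hk₁ hk₂ hr
  have h1 := rank_bound (q := q) T₁ T₂ ⊤ hT (by
    rw [finrank_top, Module.finrank_matrix, Fintype.card_fin, Module.finrank_self, mul_one,
      ← pow_two]
    have h2 : 6 * q * m < m * m := Nat.mul_lt_mul_of_pos_right hq hm
    have h3 : 6 * q * m = 2 * (3 * q * m) := by ring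
    rw [← pow_two] at h2
    omega)
  refine h1.trans (le_of_eq ?_)
  push_cast
  ring

/-- the bound in terms of densities -/
theorem rank_density {H₁ H₂ : Set (Mat m)} (hH₁ : Irr H₁) (hH₂ : Irr H₂)
    {g₁ g₂ : Submodule ℂ (Mat m)} (hg₁ : Stable H₁ g₁) (hg₂ : Stable H₂ g₂) (hm : 1 ≤ m) {r : ℕ}
    (hr : HasRestrRank g₁ g₂ ⊤ r) :
    (finrank ℂ g₁ / (m : ℝ) ^ 2) * (finrank ℂ g₂ / (m : ℝ) ^ 2) / 16 * ((m : ℝ) / 6) ^ omega ≤ r := by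
  have hm' : (0 : ℝ) < m := by exact_mod_cast hm
  have hd : ∀ g : Submodule ℂ (Mat m), finrank ℂ g ≤ m ^ 2 := by
    intro g
    have := Submodule.finrank_le g
    rwa [Module.finrank_matrix, Fintype.card_fin, Module.finrank_self, mul_one, ← pow_two] at this
  rcases Nat.eq_zero_or_pos (finrank ℂ g₁) with h0 | h1
  · rw [h0]
    simp
  rcases Nat.eq_zero_or_pos (finrank ℂ g₂) with h0 | h2
  · rw [h0]
    simp
  -- the numbers of translates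
  have hk : ∀ g : Submodule ℂ (Mat m), 0 < finrank ℂ g → ∃ k : ℕ, m ^ 2 ≤ k * finrank ℂ g ∧
      (finrank ℂ g / (m : ℝ) ^ 2) * k ≤ 2 := by
    intro g hg
    refine ⟨(m ^ 2 + (finrank ℂ g - 1)) / finrank ℂ g, ?_, ?_⟩
    · have h3 := Nat.div_add_mod (m ^ 2 + (finrank ℂ g - 1)) (finrank ℂ g)
      have h4 := Nat.mod_lt (m ^ 2 + (finrank ℂ g - 1)) hg
      rw [mul_comm] at h3
      omega
    · have h3 := Nat.div_mul_le_self (m ^ 2 + (finrank ℂ g - 1)) (finrank ℂ g)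
      have h4 := hd g
      have h5 : (m ^ 2 + (finrank ℂ g - 1)) / finrank ℂ g * finrank ℂ g ≤ 2 * m ^ 2 := by omega
      have h6 : (((m ^ 2 + (finrank ℂ g - 1)) / finrank ℂ g : ℕ) : ℝ) * finrank ℂ g ≤
          2 * (m : ℝ) ^ 2 := by exact_mod_cast h5
      rw [div_mul_eq_mul_div, div_le_iff₀ (by positivity)]
      linarith
  obtain ⟨k₁, hk₁, hk₁'⟩ := hk g₁ h1
  obtain ⟨k₂, hk₂, hk₂'⟩ := hk g₂ h2
  -- the size
  let q := (m - 1) / 6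
  have hq : 6 * q < m := by
    have := Nat.div_mul_le_self (m - 1) 6
    simp only [q]
    omega
  have hq' : (m : ℝ) / 6 ≤ (q : ℝ) + 1 := by
    rw [div_le_iff₀ (by norm_num)]
    have : m ≤ (q + 1) * 6 := by
      simp only [q]
      omega
    exact_mod_cast this
  have h3 := rank_two hH₁ hH₂ hg₁ hg₂ hk₁ hk₂ hr hq
  have h4 : ((m : ℝ) / 6) ^ omega ≤ 4 * k₁ * k₂ * r :=
    (Real.rpow_le_rpow (by positivity) hq' omega_nonneg).trans h3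
  have h5 : 0 ≤ (finrank ℂ g₁ / (m : ℝ) ^ 2) * (finrank ℂ g₂ / (m : ℝ) ^ 2) / 16 := by positivity
  have h6 : (0 : ℝ) ≤ (finrank ℂ g₁ / (m : ℝ) ^ 2) * k₁ := by positivity
  have h7 : (0 : ℝ) ≤ (finrank ℂ g₂ / (m : ℝ) ^ 2) * k₂ := by positivity
  have hr0 : (0 : ℝ) ≤ r := Nat.cast_nonneg r
  calc _ ≤ (finrank ℂ g₁ / (m : ℝ) ^ 2) * (finrank ℂ g₂ / (m : ℝ) ^ 2) / 16 *
        (4 * k₁ * k₂ * r) := mul_le_mul_of_nonneg_left h4 h5
    _ = ((finrank ℂ g₁ / (m : ℝ) ^ 2) * k₁) * ((finrank ℂ g₂ / (m : ℝ) ^ 2) * k₂) / 4 * r := by ring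
    _ ≤ 2 * 2 / 4 * r := by
        have := mul_le_mul hk₁' hk₂' h7 (by norm_num)
        exact mul_le_mul_of_nonneg_right (by linarith) hr0
    _ = r := by ring

end Pool.Agent.Helper343_LG
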