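import Pool.Agent.Helper343_LG.Rank
import Pool.Agent.Y538.Par.Basic

set_option autoImplicit false

/-!
# Completely reducible sets of matrices
-/

namespace Pool.Agent.Helper343_LG

open Module Pool.Agent.H515R2.MMR Filter Topology

variable {n m : ℕ}

/-- invariant subspaces of a set of matrices -/
def Invt (H : Set (Mat n)) (V : Submodule ℂ (Fin n → ℂ)) : Prop :=
  ∀ h ∈ H, ∀ v ∈ V, h.mulVec v ∈ V

/-- a set of invertible matrices, closed under inverses, which acts completely reducibly -/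
structure CR (H : Set (Mat n)) : Prop where
  inv : ∀ h ∈ H, ∃ h' ∈ H, h * h' = 1
  compl : ∀ V : Submodule ℂ (Fin n → ℂ), Invt H V → ∃ W, Invt H W ∧ IsCompl V W

/-- an irreducible invariant subspace on which the density is not smaller -/
theorem exists_constituent {H : Set (Mat n)} (hH : CR H) (g : Submodule ℂ (Mat n)) (hn : 1 ≤ n) :
    ∃ V : Submodule ℂ (Fin n → ℂ), Invt H V ∧ V ≠ ⊥ ∧ 0 ≤ pot g V ∧
      ∀ V' ≤ V, Invt H V' → V' = ⊥ ∨ V' = V := by
  have hne : {V : Submodule ℂ (Fin n → ℂ) | Invt H V ∧ V ≠ ⊥ ∧ 0 ≤ pot g V}.Nonempty := by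
    refine ⟨⊤, fun _ _ _ _ => trivial, ?_, by rw [pot_top]⟩
    intro h
    have h1 := congrArg (fun V : Submodule ℂ (Fin n → ℂ) => finrank ℂ V) h
    simp only [finrank_top, finrank_bot, Module.finrank_fin_fun] at h1
    omega
  let f : {V : Submodule ℂ (Fin n → ℂ) | Invt H V ∧ V ≠ ⊥ ∧ 0 ≤ pot g V} → ℕ :=
    fun V => finrank ℂ (V : Submodule ℂ (Fin n → ℂ))
  have : Nonempty {V : Submodule ℂ (Fin n → ℂ) | Invt H V ∧ V ≠ ⊥ ∧ 0 ≤ pot g V} :=
    hne.to_subtype
  obtain ⟨⟨V₀, hVi, hVb, hpV⟩, hV⟩ : ∃ V, ∀ W, f V ≤ f W :=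
    ⟨Function.argmin f, fun W => Function.argmin_le f W⟩
  refine ⟨V₀, hVi, hVb, hpV, fun V' hV' hi => ?_⟩
  by_contra hcon
  push Not at hcon
  obtain ⟨h0, h1⟩ := hcon
  obtain ⟨W, hWi, hW⟩ := hH.compl V' hi
  have hsup : V' ⊔ W ⊓ V₀ = V₀ := by
    rw [← sup_inf_assoc_of_le W hV', hW.sup_eq_top, top_inf_eq]
  have hinf : V' ⊓ (W ⊓ V₀) = ⊥ := by
    rw [← inf_assoc, hW.inf_eq_bot, bot_inf_eq]
  have hWV : Invt H (W ⊓ V₀) := fun h hh v hv => ⟨hWi h hh v hv.1, hVi h hh v hv.2⟩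
  have hsub := pot_submodular g V' (W ⊓ V₀)
  rw [hsup, hinf, pot_bot, add_zero] at hsub
  have hlt1 : finrank ℂ V' < finrank ℂ V₀ :=
    Submodule.finrank_lt_finrank_of_lt (lt_of_le_of_ne hV' h1)
  have hne2 : W ⊓ V₀ ≠ V₀ := by
    intro h
    have h2 : V₀ ≤ W := inf_eq_right.mp h
    have h3 : V' ≤ V' ⊓ W := le_inf le_rfl (hV'.trans h2)
    rw [hW.inf_eq_bot] at h3
    exact h0 (eq_bot_iff.mpr h3)
  have hlt2 : finrank ℂ (W ⊓ V₀ : Submodule ℂ (Fin n → ℂ)) < finrank ℂ V₀ :=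
    Submodule.finrank_lt_finrank_of_lt (lt_of_le_of_ne inf_le_right hne2)
  rcases le_or_gt 0 (pot g V') with hp | hp
  · have := hV ⟨V', hi, h0, hp⟩
    simp only [f] at this
    omega
  · have hp2 : 0 ≤ pot g (W ⊓ V₀) := by omega
    have hb : W ⊓ V₀ ≠ ⊥ := by
      intro h
      rw [h, sup_bot_eq] at hsup
      exact h1 hsup
    have := hV ⟨W ⊓ V₀, hWV, hb, hp2⟩
    simp only [f] at this
    omega

/-- coordinates for a subspace and a projection to it -/
theorem exists_coord (V : Submodule ℂ (Fin n → ℂ)) :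
    ∃ (m : ℕ) (ι : Matrix (Fin n) (Fin m) ℂ) (π : Matrix (Fin m) (Fin n) ℂ), m = finrank ℂ V ∧
      π * ι = 1 ∧ (∀ u, ι.mulVec u ∈ V) ∧ ∀ v ∈ V, ι.mulVec (π.mulVec v) = v := by
  let b := Module.finBasis ℂ V
  let i : (Fin (finrank ℂ V) → ℂ) →ₗ[ℂ] (Fin n → ℂ) := V.subtype.comp b.equivFun.symm.toLinearMap
  obtain ⟨P, hP⟩ := LinearMap.exists_extend (LinearMap.id : V →ₗ[ℂ] V)
  have hPv : ∀ v : V, P v = v := fun v => LinearMap.congr_fun hP v
  let p : (Fin n → ℂ) →ₗ[ℂ] (Fin (finrank ℂ V) → ℂ) := b.equivFun.toLinearMap.comp P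
  have hpi : p.comp i = LinearMap.id := by
    apply LinearMap.ext
    intro u
    simp only [p, i, LinearMap.comp_apply, LinearEquiv.coe_coe, Submodule.subtype_apply]
    rw [hPv]
    exact b.equivFun.apply_symm_apply u
  refine ⟨finrank ℂ V, LinearMap.toMatrix' i, LinearMap.toMatrix' p, rfl, ?_, ?_, ?_⟩
  · rw [← LinearMap.toMatrix'_comp, hpi, LinearMap.toMatrix'_id]
  · intro u
    rw [← Matrix.toLin'_apply, Matrix.toLin'_toMatrix']
    exact (b.equivFun.symm u).2
  · intro v hv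
    rw [← Matrix.toLin'_apply, ← Matrix.toLin'_apply, Matrix.toLin'_toMatrix',
      Matrix.toLin'_toMatrix']
    simp only [p, i, LinearMap.comp_apply, LinearEquiv.coe_coe, Submodule.subtype_apply]
    have := hPv ⟨v, hv⟩
    simp only at this
    rw [this]
    simp

/-- compression of matrices -/
noncomputable def cmp (ι : Matrix (Fin n) (Fin m) ℂ) (π : Matrix (Fin m) (Fin n) ℂ) :
    Mat n →ₗ[ℂ] Mat m where
  toFun x := π * x * ι
  map_add' x y := by rw [Matrix.mul_add, Matrix.add_mul]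
  map_smul' c x := by rw [Matrix.mul_smul, Matrix.smul_mul, RingHom.id_apply]

lemma cmp_apply (ι : Matrix (Fin n) (Fin m) ℂ) (π : Matrix (Fin m) (Fin n) ℂ) (x : Mat n) :
    cmp ι π x = π * x * ι := rfl

/-- if the columns of `M` lie in `V` then `ι π M = M` -/
lemma proj_mul {k : ℕ} {V : Submodule ℂ (Fin n → ℂ)} {ι : Matrix (Fin n) (Fin m) ℂ}
    {π : Matrix (Fin m) (Fin n) ℂ} (h : ∀ v ∈ V, ι.mulVec (π.mulVec v) = v)
    {M : Matrix (Fin n) (Fin k) ℂ} (hM : ∀ u, M.mulVec u ∈ V) : ι * (π * M) = M := by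
  apply Matrix.toLin'.injective
  apply LinearMap.ext
  intro u
  simp only [Matrix.toLin'_apply, ← Matrix.mulVec_mulVec]
  rw [h _ (hM _)]

/-- **The completely reducible case.** -/
theorem rank_reductive {H : Set (Mat n)} (hH : CR H) {g : Submodule ℂ (Mat n)} (hg : Stable H g)
    (hpres : ∀ V, Invt H V → ∀ x ∈ g, ∀ v ∈ V, x.mulVec v ∈ V) (hn : 1 ≤ n) {r : ℕ}
    (hr : HasRestrRank g g ⊤ r) :
    ((finrank ℂ g : ℝ) / (6 * n)) ^ omega / 16 ≤ r := by
  obtain ⟨V, hVi, hV0, hVp, hVirr⟩ := exists_constituent hH g hn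
  obtain ⟨m, ι, π, hm, hπι, hι, hproj⟩ := exists_coord V
  have hm1 : 1 ≤ m := by
    rw [hm, Nat.one_le_iff_ne_zero]
    intro h
    exact hV0 (Submodule.finrank_eq_zero.mp h)
  -- elements which preserve `V`
  have hx : ∀ x : Mat n, (∀ v ∈ V, x.mulVec v ∈ V) → ι * (π * (x * ι)) = x * ι := by
    intro x hx
    apply proj_mul hproj
    intro u
    rw [← Matrix.mulVec_mulVec]
    exact hx _ (hι u)
  have hgx : ∀ x ∈ g, ι * (π * (x * ι)) = x * ι := fun x hxg => hx x (hpres V hVi x hxg)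
  have hhx : ∀ h ∈ H, ι * (π * (h * ι)) = h * ι := fun h hh => hx h (hVi h hh)
  -- products of compressions
  have hmul : ∀ x y : Mat n, ι * (π * (y * ι)) = y * ι →
      cmp ι π x * cmp ι π y = cmp ι π (x * y) := by
    intro x y hy
    simp only [cmp_apply, Matrix.mul_assoc]
    rw [hy]
  let H' : Set (Mat m) := cmp ι π '' H
  let g' : Submodule ℂ (Mat m) := g.map (cmp ι π)
  have hone : cmp ι π 1 = 1 := by rw [cmp_apply, Matrix.mul_one, hπι]
  have hIrr : Irr H' := by
    constructor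
    · rintro _ ⟨h, hh, rfl⟩
      obtain ⟨h', hh', hhh⟩ := hH.inv h hh
      refine ⟨_, ⟨h', hh', rfl⟩, ?_⟩
      rw [hmul h h' (hhx h' hh'), hhh, hone]
    · intro U hU
      have hUi : Invt H (U.map ι.mulVecLin) := by
        rintro h hh _ ⟨u, hu, rfl⟩
        refine ⟨(cmp ι π h).mulVec u, hU _ ⟨h, hh, rfl⟩ u hu, ?_⟩
        rw [Matrix.mulVecLin_apply, Matrix.mulVecLin_apply, Matrix.mulVec_mulVec,
          Matrix.mulVec_mulVec, cmp_apply, Matrix.mul_assoc, hhx h hh]
      have hUV : U.map ι.mulVecLin ≤ V := by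
        rintro _ ⟨u, _, rfl⟩
        exact hι u
      have hback : ∀ u, π.mulVec (ι.mulVec u) = u := by
        intro u
        rw [Matrix.mulVec_mulVec, hπι, Matrix.one_mulVec]
      rcases hVirr _ hUV hUi with h | h
      · left
        rw [eq_bot_iff]
        intro u hu
        have h1 : ι.mulVec u ∈ U.map ι.mulVecLin := ⟨u, hu, rfl⟩
        rw [h, Submodule.mem_bot] at h1
        rw [Submodule.mem_bot, ← hback u, h1, Matrix.mulVec_zero]
      · right
        rw [eq_top_iff]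
        intro u _
        have h1 : ι.mulVec u ∈ U.map ι.mulVecLin := by
          rw [h]
          exact hι u
        obtain ⟨w, hw, hwu⟩ := h1
        rw [Matrix.mulVecLin_apply] at hwu
        have : w = u := by rw [← hback w, hwu, hback]
        rwa [this] at hw
  have hSt : Stable H' g' := by
    rintro _ ⟨h, hh, rfl⟩ b ⟨k, hk, rfl⟩ hab _ ⟨x, hxg, rfl⟩
    obtain ⟨h', hh', hhh⟩ := hH.inv h hh
    have h1 : cmp ι π h * cmp ι π h' = 1 := by rw [hmul h h' (hhx h' hh'), hhh, hone]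
    have h2 : cmp ι π k = cmp ι π h' := by
      have h3 := mul_eq_one_comm.mp hab
      calc cmp ι π k = cmp ι π k * (cmp ι π h * cmp ι π h') := by rw [h1, mul_one]
        _ = (cmp ι π k * cmp ι π h) * cmp ι π h' := by rw [mul_assoc]
        _ = cmp ι π h' := by rw [h3, one_mul]
    rw [h2, hmul h x (hgx x hxg), hmul _ h' (hhx h' hh')]
    exact ⟨h * x * h', hg h hh h' hh' hhh x hxg, rfl⟩
  -- the dimension of the compression
  have hker : g ⊓ LinearMap.ker (cmp ι π) ≤ g ⊓ ann V := by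
    rintro x ⟨hxg, hxk⟩
    refine ⟨hxg, fun v hv => ?_⟩
    have h1 : π * (x * ι) = 0 := by
      rw [← Matrix.mul_assoc]
      exact LinearMap.mem_ker.mp hxk
    have h2 := hgx x hxg
    rw [h1, Matrix.mul_zero] at h2
    rw [← hproj v hv, Matrix.mulVec_mulVec, ← h2, Matrix.zero_mulVec]
  have hdim : finrank ℂ g - finrank ℂ (g ⊓ ann V : Submodule ℂ (Mat n)) ≤ finrank ℂ g' := by
    have h1 := LinearMap.finrank_range_add_finrank_ker ((cmp ι π).domRestrict g)
    rw [LinearMap.range_domRestrict] at h1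
    have h2 : (LinearMap.ker ((cmp ι π).domRestrict g)).map g.subtype ≤
        g ⊓ LinearMap.ker (cmp ι π) := by
      rintro _ ⟨x, hx0, rfl⟩
      exact ⟨x.2, hx0⟩
    have h3 := Submodule.finrank_mono (h2.trans hker)
    rw [← (Submodule.equivMapOfInjective g.subtype g.injective_subtype _).finrank_eq] at h3
    have h4 : finrank ℂ g' = finrank ℂ (g.map (cmp ι π)) := rfl
    omega
  have hpot : finrank ℂ g * m ≤ n * finrank ℂ g' := by
    have hle : finrank ℂ (g ⊓ ann V : Submodule ℂ (Mat n)) ≤ finrank ℂ g :=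
      Submodule.finrank_mono inf_le_left
    refine le_trans ?_ (Nat.mul_le_mul_left n hdim)
    unfold pot at hVp
    rw [← hm] at hVp
    zify [hle]
    linarith
  -- the rank of the product on the compression
  have hrank : HasRestrRank g' g' ⊤ r := by
    obtain ⟨f, k, h, hfkh⟩ := hr
    let Φ : g →ₗ[ℂ] g' := ((cmp ι π).comp g.subtype).codRestrict g' fun x => ⟨x, x.2, rfl⟩
    have hΦ : Function.Surjective Φ := by
      rintro ⟨_, x, hxg, rfl⟩
      exact ⟨⟨x, hxg⟩, rfl⟩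
    obtain ⟨S, hS⟩ := LinearMap.exists_rightInverse_of_surjective Φ (LinearMap.range_eq_top.mpr hΦ)
    obtain ⟨S', hS'⟩ := LinearMap.exists_extend S
    have hSA : ∀ A ∈ g', cmp ι π (S' A) = A := by
      intro A hA
      have h1 : S' A = S ⟨A, hA⟩ := by
        rw [← hS']
        rfl
      have h2 := congrArg (Subtype.val) (LinearMap.congr_fun hS ⟨A, hA⟩)
      rw [h1]
      exact h2
    let C' : Mat m →ₗ[ℂ] Mat n :=
      { toFun := fun C => ι * C * π
        map_add' := fun x y => by rw [Matrix.mul_add, Matrix.add_mul]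
        map_smul' := fun c x => by rw [Matrix.mul_smul, Matrix.smul_mul, RingHom.id_apply] }
    refine ⟨fun t => (f t).comp (g.subtype.comp S'), fun t => (k t).comp (g.subtype.comp S'),
      fun t => (h t).comp C', ?_⟩
    intro A hA B hB C _
    have h1 := hfkh (S' A) (S' A).2 (S' B) (S' B).2 (ι * C * π) trivial
    have h2 : (A * B * C).trace = ((S' A : Mat n) * (S' B : Mat n) * (ι * C * π)).trace := by
      conv_lhs => rw [← hSA A hA, ← hSA B hB]
      rw [hmul _ _ (hgx _ (S' B).2), cmp_apply]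
      rw [Matrix.mul_assoc, Matrix.mul_assoc, Matrix.trace_mul_comm]
      simp only [Matrix.mul_assoc]
    rw [h2, h1]
    rfl
  -- the bound
  have hmain := rank_density hIrr hIrr hSt hSt hm1 hrank
  have hm' : (0 : ℝ) < m := by exact_mod_cast hm1
  have hn' : (0 : ℝ) < n := by exact_mod_cast hn
  have hd' : finrank ℂ g' ≤ m ^ 2 := by
    have := Submodule.finrank_le g'
    rwa [Module.finrank_matrix, Fintype.card_fin, Module.finrank_self, mul_one, ← pow_two] at this
  have hω := Pool.Agent.Y538.Par.two_le_omega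
  rcases Nat.eq_zero_or_pos (finrank ℂ g) with h0 | hgpos
  · rw [h0]
    have : ((0 : ℕ) : ℝ) / (6 * n) = 0 := by simp
    rw [this, Real.zero_rpow (by linarith)]
    simp
  set D : ℝ := (finrank ℂ g : ℝ) / n with hD
  have hDpos : 0 < D := by
    have : (0 : ℝ) < finrank ℂ g := by exact_mod_cast hgpos
    positivity
  have h1 : D * m ≤ finrank ℂ g' := by
    rw [hD, div_mul_eq_mul_div, div_le_iff₀ hn']
    have : ((finrank ℂ g * m : ℕ) : ℝ) ≤ (n * finrank ℂ g' : ℕ) := by exact_mod_cast hpot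
    push_cast at this
    linarith
  have h2 : D ≤ m := by
    have h3 : (finrank ℂ g' : ℝ) ≤ (m : ℝ) ^ 2 := by exact_mod_cast hd'
    have h4 : D * m ≤ m * m := by rw [← pow_two]; exact h1.trans h3
    exact le_of_mul_le_mul_right h4 hm'
  have h3 : D / m ≤ finrank ℂ g' / (m : ℝ) ^ 2 := by
    rw [div_le_div_iff₀ hm' (by positivity)]
    nlinarith [mul_le_mul_of_nonneg_right h1 hm'.le]
  have h4 : (D / m) * (D / m) / 16 * ((m : ℝ) / 6) ^ omega ≤ r := by
    refine le_trans ?_ hmain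
    have h5 : 0 ≤ D / m := by positivity
    have h6 : 0 ≤ ((m : ℝ) / 6) ^ omega := by positivity
    have h7 := mul_le_mul h3 h3 h5 (h5.trans h3)
    exact mul_le_mul_of_nonneg_right (div_le_div_of_nonneg_right h7 (by norm_num)) h6
  refine le_trans ?_ h4
  -- `(D/6)^ω ≤ (D/m)^2 (m/6)^ω`
  have h5 : (finrank ℂ g : ℝ) / (6 * n) = (D / m) * (m / 6) := by
    rw [hD]
    field_simp
  rw [h5, Real.mul_rpow (by positivity) (by positivity)]
  have h6 : (D / m) ^ omega ≤ (D / m) * (D / m) := by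
    have h7 : D / m ≤ 1 := by rw [div_le_one hm']; exact h2
    have h8 := Real.rpow_le_rpow_of_exponent_ge (by positivity) h7 hω
    calc (D / m) ^ omega ≤ (D / m) ^ (2 : ℝ) := h8
      _ = (D / m) * (D / m) := by
        rw [show (2 : ℝ) = ((2 : ℕ) : ℝ) by norm_num, Real.rpow_natCast, pow_two]
  have h7 : 0 ≤ ((m : ℝ) / 6) ^ omega := by positivity
  nlinarith [mul_le_mul_of_nonneg_right h6 h7]

end Pool.Agent.Helper343_LG
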