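import Pool.Agent.Helper343_LG.Red
import Pool.Agent.Helper343_LG.Defs

set_option autoImplicit false

/-!
# Tangent spaces of linear groups
-/

namespace Pool.Agent.Helper343_LG

open Module Pool.Agent.H515R2.MMR Filter Topology

variable {n : ℕ} {G : Subgroup (GL (Fin n) ℂ)}

lemma one_mem_mats : (1 : Mat n) ∈ mats G := ⟨1, G.one_mem, rfl⟩

lemma mul_mem_mats {A B : Mat n} (hA : A ∈ mats G) (hB : B ∈ mats G) : A * B ∈ mats G := by
  obtain ⟨a, ha, rfl⟩ := hA
  obtain ⟨b, hb, rfl⟩ := hB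
  exact ⟨a * b, G.mul_mem ha hb, rfl⟩

lemma exists_inv_mats {A : Mat n} (hA : A ∈ mats G) : ∃ B ∈ mats G, A * B = 1 := by
  obtain ⟨a, ha, rfl⟩ := hA
  refine ⟨_, ⟨a⁻¹, G.inv_mem ha, rfl⟩, ?_⟩
  rw [← Units.val_mul, mul_inv_cancel, Units.val_one]

lemma span_le_of_tangent {X : Set (Mat n)} {A : Mat n} {T : Submodule ℂ (Mat n)}
    (f : Mat n →ₗ[ℂ] Mat n) (h : ∀ u, IsTangent X A u → f u ∈ T) {x : Mat n}
    (hx : x ∈ tanSpan X A) : f x ∈ T := by
  have h1 : tanSpan X A ≤ T.comap f := by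
    unfold tanSpan
    rw [Submodule.span_le]
    intro u hu
    exact h u hu
  exact h1 hx

lemma stable_tan : Stable (mats G) (tanSpan (mats G) 1) := by
  intro h hh h' hh' hhh x hx
  rw [← conj_apply]
  refine span_le_of_tangent (conj h h') (fun u hu => ?_) hx
  obtain ⟨A, s, hA, hs, hs0, hu⟩ := hu
  apply Submodule.subset_span
  refine ⟨fun k => h * A k * h', s, fun k => mul_mem_mats (mul_mem_mats hh (hA k)) hh', hs, hs0, ?_⟩
  rw [conj_apply]
  have h1 := (hu.const_mul h).mul_const h'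
  refine h1.congr fun k => ?_
  rw [Matrix.mul_smul, Matrix.smul_mul, mul_sub, sub_mul, mul_one, hhh]

lemma invt_iff (V : Submodule ℂ (Fin n → ℂ)) : Invt (mats G) V ↔ Invariant G V := by
  constructor
  · intro h g hg v hv
    exact h _ ⟨g, hg, rfl⟩ v hv
  · rintro h _ ⟨g, hg, rfl⟩ v hv
    exact h g hg v hv

lemma irr_of (h : Irreducible G) : Irr (mats G) :=
  ⟨fun _ hh => exists_inv_mats hh, fun U hU => h U ((invt_iff U).mp hU)⟩

lemma cr_of (h : CompletelyReducible G) : CR (mats G) := by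
  refine ⟨fun _ hh => exists_inv_mats hh, fun V hV => ?_⟩
  obtain ⟨W, hW, hVW⟩ := h V ((invt_iff V).mp hV)
  exact ⟨W, (invt_iff W).mpr hW, hVW⟩

lemma tan_preserves (V : Submodule ℂ (Fin n → ℂ)) (hV : Invt (mats G) V) {x : Mat n}
    (hx : x ∈ tanSpan (mats G) 1) : ∀ v ∈ V, x.mulVec v ∈ V := by
  intro v hv
  let T : Submodule ℂ (Mat n) :=
    { carrier := {x | x.mulVec v ∈ V}
      add_mem' := by
        intro a b ha hb
        change (a + b).mulVec v ∈ V
        rw [Matrix.add_mulVec]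
        exact V.add_mem ha hb
      zero_mem' := by
        change (0 : Mat n).mulVec v ∈ V
        rw [Matrix.zero_mulVec]
        exact V.zero_mem
      smul_mem' := by
        intro c a ha
        change (c • a).mulVec v ∈ V
        rw [Matrix.smul_mulVec]
        exact V.smul_mem c ha }
  have h1 : (LinearMap.id : Mat n →ₗ[ℂ] Mat n) x ∈ T := by
    refine span_le_of_tangent LinearMap.id (fun u hu => ?_) hx
    obtain ⟨A, s, hA, hs, hs0, hu⟩ := hu
    have hcl : IsClosed (V : Set (Fin n → ℂ)) := V.closed_of_finiteDimensional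
    have hc : Continuous fun M : Mat n => M.mulVec v :=
      (continuous_id).matrix_mulVec continuous_const
    refine hcl.mem_of_tendsto ((hc.tendsto u).comp hu) (Eventually.of_forall fun k => ?_)
    simp only [Function.comp]
    rw [Matrix.smul_mulVec, Matrix.sub_mulVec, Matrix.one_mulVec]
    exact V.smul_mem _ (V.sub_mem (hV _ (hA k) v hv) hv)
  exact h1

/-- tangent sequences can be moved into a neighbourhood -/
lemma tangent_translate {X : Set (Mat n)} {a u : Mat n} (f : Mat n →ₗ[ℂ] Mat n)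
    (hf1 : f 1 = a) {O : Set (Mat n)} (hO : IsOpen O) (haO : a ∈ O)
    (hX : ∀ A ∈ mats G, f A ∈ O → f A ∈ X) (hu : IsTangent (mats G) 1 u) :
    IsTangent X a (f u) := by
  obtain ⟨A, s, hA, hs, hs0, hu⟩ := hu
  have hfc : Continuous f := LinearMap.continuous_of_finiteDimensional f
  have hA1 : Tendsto A atTop (𝓝 1) := by
    have h1 := (hs0.smul hu).add_const (1 : Mat n)
    rw [zero_smul, zero_add] at h1
    refine h1.congr fun k => ?_
    rw [smul_smul, mul_inv_cancel₀ (hs k), one_smul, sub_add_cancel]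
  have h2 : ∀ᶠ k in atTop, f (A k) ∈ O := by
    have h3 := (hfc.tendsto 1).comp hA1
    rw [hf1] at h3
    exact h3.eventually (hO.mem_nhds haO)
  obtain ⟨N, hN⟩ := eventually_atTop.mp h2
  refine ⟨fun k => f (A (k + N)), fun k => s (k + N), fun k => hX _ (hA _) (hN _ (by omega)),
    fun k => hs _, hs0.comp (tendsto_add_atTop_nat N), ?_⟩
  have h4 := (hfc.tendsto u).comp (hu.comp (tendsto_add_atTop_nat N))
  refine h4.congr fun k => ?_
  simp only [Function.comp]
  rw [map_smul, map_sub, hf1]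

/-- **From a program to the rank on the tangent spaces at the unit matrix.** -/
theorem rank_at_one {G₁ G₂ : Subgroup (GL (Fin n) ℂ)} {O₁ O₂ : Set (Mat n)} (hO₁ : IsOpen O₁)
    (hO₂ : IsOpen O₂) {a b : Mat n} (ha : a ∈ mats G₁) (haO : a ∈ O₁) (hb : b ∈ mats G₂)
    (hbO : b ∈ O₂) {L : ℕ} {s : ℕ → Step n}
    (hc : Computes L s (mats G₁ ∩ O₁) (mats G₂ ∩ O₂) ⊤) :
    HasRestrRank (tanSpan (mats G₁) 1) (tanSpan (mats G₂) 1) ⊤ (L * 2) := by
  obtain ⟨f, g, h, H⟩ := prog_restrRank s _ _ ⊤ hc ⟨ha, haO⟩ ⟨hb, hbO⟩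
  obtain ⟨a', ha', haa⟩ := exists_inv_mats ha
  obtain ⟨b', hb', hbb⟩ := exists_inv_mats hb
  have haa' : a' * a = 1 := mul_eq_one_comm.mp haa
  have h1 : ∀ x ∈ tanSpan (mats G₁) 1, a * x ∈ tanSpan (mats G₁ ∩ O₁) a := by
    intro x hx
    refine span_le_of_tangent (LinearMap.mulLeft ℂ a) (fun u hu => Submodule.subset_span ?_) hx
    exact tangent_translate (LinearMap.mulLeft ℂ a) (by simp) hO₁ haO
      (fun A hA hAO => ⟨mul_mem_mats ha hA, hAO⟩) hu
  have h2 : ∀ x ∈ tanSpan (mats G₂) 1, x * b ∈ tanSpan (mats G₂ ∩ O₂) b := by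
    intro x hx
    refine span_le_of_tangent (LinearMap.mulRight ℂ b) (fun u hu => Submodule.subset_span ?_) hx
    exact tangent_translate (LinearMap.mulRight ℂ b) (by simp) hO₂ hbO
      (fun A hA hAO => ⟨mul_mem_mats hA hb, hAO⟩) hu
  refine ⟨fun t => (f t).comp (LinearMap.mulLeft ℂ a), fun t => (g t).comp (LinearMap.mulRight ℂ b),
    fun t => (h t).comp (conj b' a'), ?_⟩
  intro x hx y hy C _
  have h3 := H _ (h1 x hx) _ (h2 y hy) (b' * C * a') trivial
  have h4 : (a * x * (y * b) * (b' * C * a')).trace = (x * y * C).trace := by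
    have h5 : a * x * (y * b) * (b' * C * a') = a * (x * y * C * a') := by
      calc a * x * (y * b) * (b' * C * a') = a * (x * (y * ((b * b') * (C * a')))) := by
            simp only [mul_assoc]
        _ = _ := by rw [hbb, one_mul]; simp only [mul_assoc]
    rw [h5, Matrix.trace_mul_comm, mul_assoc, haa', mul_one]
  rw [h4] at h3
  rw [h3]
  refine Finset.sum_congr rfl fun t _ => ?_
  simp only [LinearMap.comp_apply, LinearMap.mulLeft_apply, LinearMap.mulRight_apply, conj_apply]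

end Pool.Agent.Helper343_LG
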